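import Mathlib

namespace Pool.Agent.H.MP_1670b2_al

open CliffordAlgebra

section Pf
variable {R M : Type} [CommRing R] [AddCommGroup M] [Module R M]

theorem altq (β : LinearMap.BilinForm R M) (h : ∀ x, β x x = 0) :
    β.toQuadraticMap = (0 : QuadraticForm R M) - 0 := by
  ext x; simp [h]

noncomputable def tau (β : LinearMap.BilinForm R M) (h : ∀ x, β x x = 0) :
    ExteriorAlgebra R M →ₗ[R] R :=
  (ExteriorAlgebra.algebraMapInv (R := R) (M := M)).toLinearMap ∘ₗ changeForm (altq β h)

noncomputable def pr (l : List M) : ExteriorAlgebra R M := (l.map (ExteriorAlgebra.ι R)).prod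

theorem pr_nil : (pr [] : ExteriorAlgebra R M) = 1 := rfl
theorem pr_cons (x : M) (l : List M) :
    (pr (x :: l) : ExteriorAlgebra R M) = ExteriorAlgebra.ι R x * pr l := by simp [pr]
theorem pr_append (l l' : List M) :
    (pr (l ++ l') : ExteriorAlgebra R M) = pr l * pr l' := by simp [pr]

theorem tau_one (β : LinearMap.BilinForm R M) (h : ∀ x, β x x = 0) : tau β h 1 = 1 := by
  simp [tau]

theorem inv_ι (x : M) :
    ExteriorAlgebra.algebraMapInv (ExteriorAlgebra.ι R x) = 0 := by
  simp [ExteriorAlgebra.algebraMapInv]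

theorem tau_ι_mul (β : LinearMap.BilinForm R M) (h : ∀ x, β x x = 0) (m : M)
    (x : ExteriorAlgebra R M) :
    tau β h (ExteriorAlgebra.ι R m * x) = - tau β h (contractLeft (Q := 0) (β m) x) := by
  have h1 := changeForm_ι_mul (altq β h) m x
  have h2 := changeForm_contractLeft (altq β h) (β m) x
  change ExteriorAlgebra.algebraMapInv (changeForm (altq β h) (ι 0 m * x)) =
    - ExteriorAlgebra.algebraMapInv (changeForm (altq β h) (contractLeft (Q := 0) (β m) x))
  rw [h1, h2, map_sub, map_mul]
  have : ExteriorAlgebra.algebraMapInv (ι (0 : QuadraticForm R M) m) = 0 := inv_ι m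
  rw [this, zero_mul, zero_sub]

theorem con_cons (d : Module.Dual R M) (x : M) (l : List M) :
    contractLeft (Q := 0) d (pr (x :: l) : ExteriorAlgebra R M)
      = d x • pr l - ExteriorAlgebra.ι R x * contractLeft (Q := 0) d (pr l) := by
  rw [pr_cons]; exact contractLeft_ι_mul (Q := 0) d x (pr l)

variable {R' M' α : Type} [CommRing R'] [AddCommGroup M'] [Module R' M']

theorem aux_mem (β : LinearMap.BilinForm R M) (h : ∀ x, β x x = 0)
    (β' : LinearMap.BilinForm R' M') (h' : ∀ x, β' x x = 0) (g : α → M) (g' : α → M')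
    (S : Subring (R × R')) (T : α → Prop) (d : Module.Dual R M) (d' : Module.Dual R' M')
    (n : ℕ)
    (hP : ∀ l' : List α, (∀ x ∈ l', T x) → l'.length + 1 = n →
      (tau β h (pr (l'.map g)), tau β' h' (pr (l'.map g'))) ∈ S) :
    ∀ (l pre : List α), (∀ x ∈ l, T x) → (∀ x ∈ pre, T x) → pre.length + l.length = n →
      (∀ j ∈ l, (d (g j), d' (g' j)) ∈ S) →
      (tau β h (pr (pre.map g) * contractLeft (Q := 0) d (pr (l.map g))),
        tau β' h' (pr (pre.map g') * contractLeft (Q := 0) d' (pr (l.map g')))) ∈ S := by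
  intro l
  induction l with
  | nil =>
    intro pre _ _ _ _
    have e1 : contractLeft (Q := 0) d (pr (([] : List α).map g) : ExteriorAlgebra R M) = 0 :=
      contractLeft_one (Q := 0) d
    have e2 : contractLeft (Q := 0) d' (pr (([] : List α).map g') : ExteriorAlgebra R' M') = 0 :=
      contractLeft_one (Q := 0) d'
    rw [e1, e2, mul_zero, mul_zero, map_zero, map_zero]
    exact S.zero_mem
  | cons j l ih =>
    intro pre hl hpre hn hd
    have h1 := hP (pre ++ l) (by
      intro x hx
      rcases List.mem_append.1 hx with hx | hx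
      · exact hpre x hx
      · exact hl x (List.mem_cons_of_mem _ hx)) (by simp at hn ⊢; omega)
    have h2 := ih (pre ++ [j]) (fun x hx => hl x (List.mem_cons_of_mem _ hx)) (by
      intro x hx
      rcases List.mem_append.1 hx with hx | hx
      · exact hpre x hx
      · rw [List.mem_singleton.1 hx]; exact hl j List.mem_cons_self) (by simp at hn ⊢; omega)
      (fun x hx => hd x (List.mem_cons_of_mem _ hx))
    have h3 := S.sub_mem (S.mul_mem (hd j List.mem_cons_self) h1) h2
    rw [List.map_cons, List.map_cons, con_cons, con_cons]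
    simp only [List.map_append, pr_append, List.map_cons, List.map_nil, pr_cons, pr_nil,
      mul_one] at h3
    simpa only [mul_sub, map_sub, mul_smul_comm, map_smul, smul_eq_mul, mul_assoc, Prod.mk_mul_mk,
      Prod.mk_sub_mk] using h3

theorem pf_mem (β : LinearMap.BilinForm R M) (h : ∀ x, β x x = 0)
    (β' : LinearMap.BilinForm R' M') (h' : ∀ x, β' x x = 0) (g : α → M) (g' : α → M')
    (S : Subring (R × R')) (T : α → Prop)
    (hT : ∀ i j, T i → T j → (β (g i) (g j), β' (g' i) (g' j)) ∈ S) :
    ∀ (n : ℕ) (l : List α), (∀ x ∈ l, T x) → l.length = n →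
      (tau β h (pr (l.map g)), tau β' h' (pr (l.map g'))) ∈ S := by
  intro n
  induction n using Nat.strong_induction_on with
  | _ n ih =>
    intro l hl hn
    cases l with
    | nil =>
      simp only [List.map_nil, pr_nil, tau_one]
      exact S.one_mem
    | cons i l =>
      have := aux_mem β h β' h' g g' S T (β (g i)) (β' (g' i)) l.length
        (fun l' hl' hn' => ih l'.length (by simp at hn; omega) l' hl' rfl) l []
        (fun x hx => hl x (List.mem_cons_of_mem _ hx)) (by simp) (by simp)
        (fun j hj => hT i j (hl i List.mem_cons_self) (hl j (List.mem_cons_of_mem _ hj)))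
      simp only [List.map_nil, pr_nil, one_mul] at this
      rw [List.map_cons, List.map_cons, pr_cons, pr_cons, tau_ι_mul, tau_ι_mul]
      exact S.neg_mem this

theorem pf_nat (β : LinearMap.BilinForm R M) (h : ∀ x, β x x = 0)
    (β' : LinearMap.BilinForm R' M') (h' : ∀ x, β' x x = 0) (g : α → M) (g' : α → M')
    (φ : R →+* R') (hφ : ∀ i j, φ (β (g i) (g j)) = β' (g' i) (g' j)) (l : List α) :
    φ (tau β h (pr (l.map g))) = tau β' h' (pr (l.map g')) := by
  have := pf_mem β h β' h' g g'
    (RingHom.eqLocus (φ.comp (RingHom.fst R R')) (RingHom.snd R R')) (fun _ => True)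
    (fun i j _ _ => hφ i j) l.length l (fun _ _ => trivial) rfl
  exact this

theorem pf_mem1 (β : LinearMap.BilinForm R M) (h : ∀ x, β x x = 0) (g : α → M)
    (S : Subring R) (T : α → Prop) (hT : ∀ i j, T i → T j → β (g i) (g j) ∈ S)
    (l : List α) (hl : ∀ x ∈ l, T x) : tau β h (pr (l.map g)) ∈ S :=
  pf_mem β h β h g g (S.comap (RingHom.fst R R)) T hT l.length l hl rfl

theorem pf_two (β : LinearMap.BilinForm R M) (h : ∀ x, β x x = 0) (g : α → M)
    (S : Subring R) (T : α → Prop) (hT : ∀ i j, T i → T j → β (g i) (g j) ∈ S)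
    (i j : α) (l : List α) (hj : T j) (hl : ∀ x ∈ l, T x) (hi : ∀ x ∈ l, β (g i) (g x) ∈ S) :
    tau β h (pr ((i :: j :: l).map g)) + β (g i) (g j) * tau β h (pr (l.map g)) ∈ S := by
  have := aux_mem β h β h g g (S.comap (RingHom.fst R R)) T (β (g i)) (β (g i)) (l.length + 1)
    (fun l' hl' _ => pf_mem1 β h g S T hT l' hl') l [j] hl (by simpa using hj) (by simp; omega) hi
  have h2 : tau β h (pr ([j].map g) * contractLeft (Q := 0) (β (g i)) (pr (l.map g))) ∈ S := this
  rw [List.map_cons, pr_cons, tau_ι_mul, List.map_cons, con_cons, map_sub, map_smul, smul_eq_mul]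
  simp only [List.map_cons, List.map_nil, pr_cons, pr_nil, mul_one] at h2
  convert h2 using 1
  ring

theorem pr_perm {l l' : List α} (hp : l.Perm l') : ∃ c : ℤ, c * c = 1 ∧
    ∀ (R M : Type) [CommRing R] [AddCommGroup M] [Module R M] (g : α → M),
      (pr (l.map g) : ExteriorAlgebra R M) = c • pr (l'.map g) := by
  induction hp with
  | nil => exact ⟨1, rfl, fun _ _ _ _ _ _ => by simp⟩
  | cons x _ ih =>
    obtain ⟨c, hc, H⟩ := ih
    exact ⟨c, hc, fun R M _ _ _ g => by
      rw [List.map_cons, List.map_cons, pr_cons, pr_cons, H, mul_smul_comm]⟩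
  | swap x y l =>
    refine ⟨-1, rfl, fun R M _ _ _ g => ?_⟩
    simp only [List.map_cons, pr_cons, ← mul_assoc]
    rw [eq_neg_of_add_eq_zero_left (ExteriorAlgebra.ι_add_mul_swap (R := R) (g y) (g x))]
    simp
  | trans _ _ ih1 ih2 =>
    obtain ⟨c, hc, H⟩ := ih1
    obtain ⟨d, hd, H'⟩ := ih2
    refine ⟨c * d, by linear_combination d * d * hc + hd, fun R M _ _ _ g => ?_⟩
    rw [H, H', mul_smul]

end Pf

end Pool.Agent.H.MP_1670b2_al
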