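import Pool.Agent.H.MP_1670b2_al.A

namespace Pool.Agent.H.MP_1670b2_al

open MvPolynomial

abbrev V := {p : ℕ × ℕ // p.1 < p.2}

variable {R : Type} [CommRing R]

noncomputable def a (R : Type) [CommRing R] (i j : ℕ) : MvPolynomial V R :=
  if h : i < j then X ⟨(i, j), h⟩ else if h : j < i then - X ⟨(j, i), h⟩ else 0

theorem a_lt {i j : ℕ} (h : i < j) : a R i j = X ⟨(i, j), h⟩ := by simp [a, h]
theorem a_gt {i j : ℕ} (h : j < i) : a R i j = - X ⟨(j, i), h⟩ := by
  simp [a, h, not_lt_of_gt h]
theorem a_self (i : ℕ) : a R i i = 0 := by simp [a]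
theorem a_skew (i j : ℕ) : a R j i = - a R i j := by
  rcases lt_trichotomy i j with h | h | h
  · rw [a_lt h, a_gt h]
  · subst h; simp [a_self]
  · rw [a_lt h, a_gt h, neg_neg]
theorem X_eq (v : V) : (X v : MvPolynomial V R) = a R v.1.1 v.1.2 := by rw [a_lt v.2]

theorem skew_ext {N : Type} [AddCommGroup N] (φ : MvPolynomial V R →+ N) (c : ℕ → ℕ → N)
    (h0 : ∀ i, c i i = 0) (hs : ∀ i j, c j i = - c i j) (h : ∀ v : V, φ (X v) = c v.1.1 v.1.2)
    (i j : ℕ) : φ (a R i j) = c i j := by
  rcases lt_trichotomy i j with hh | hh | hh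
  · rw [a_lt hh, h]
  · subst hh; rw [a_self, map_zero, h0]
  · rw [a_gt hh, map_neg, h, hs j i]

def dl (R : Type) [CommRing R] (i j : ℕ) : R := if i = j then 1 else 0

theorem dl_self (i : ℕ) : dl R i i = 1 := by simp [dl]
theorem dl_ne {i j : ℕ} (h : i ≠ j) : dl R i j = 0 := by simp [dl, h]
theorem dl_comm (i j : ℕ) : dl R i j = dl R j i := by simp [dl, eq_comm]

noncomputable def dA (R : Type) [CommRing R] (r s i j : ℕ) : MvPolynomial V R :=
  dl R i s • a R r j + dl R j s • a R i r

theorem dA_self (r s i : ℕ) : dA R r s i i = 0 := by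
  unfold dA; rw [a_skew r i]; module
theorem dA_skew (r s i j : ℕ) : dA R r s j i = - dA R r s i j := by
  unfold dA; rw [a_skew i r, a_skew r j]; module

abbrev Der (R : Type) [CommRing R] := Derivation R (MvPolynomial V R) (MvPolynomial V R)

noncomputable def D (R : Type) [CommRing R] (r s : ℕ) : Der R :=
  mkDerivation R (fun v : V => dA R r s v.1.1 v.1.2)

theorem D_a (r s i j : ℕ) : D R r s (a R i j) = dA R r s i j :=
  skew_ext (D R r s).toLinearMap.toAddMonoidHom (dA R r s) (dA_self r s) (dA_skew r s)
    (fun v => mkDerivation_X _ _ v) i j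

theorem der_ext {D₁ D₂ : Der R} (h : ∀ i j, D₁ (a R i j) = D₂ (a R i j)) : D₁ = D₂ :=
  derivation_ext fun v => by rw [X_eq]; exact h _ _

theorem comm_DD (r s p q : ℕ) (f : MvPolynomial V R) :
    D R r s (D R p q f) = D R p q (D R r s f)
      + (dl R p s • D R r q f - dl R r q • D R p s f) := by
  have : ⁅D R r s, D R p q⁆ = dl R p s • D R r q - dl R r q • D R p s := by
    apply der_ext
    intro i j
    rw [Derivation.commutator_apply, D_a, D_a]
    simp only [dA, map_add, Derivation.map_smul, D_a, Derivation.sub_apply,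
      Derivation.smul_apply]
    module
  have h := DFunLike.congr_fun this f
  rw [Derivation.commutator_apply] at h
  simp only [Derivation.sub_apply, Derivation.smul_apply] at h
  rw [← h]; abel

noncomputable def pd (R : Type) [CommRing R] (i j : ℕ) : Der R :=
  if h : i < j then pderiv ⟨(i, j), h⟩ else if h : j < i then - pderiv ⟨(j, i), h⟩ else 0

theorem pd_lt {i j : ℕ} (h : i < j) : pd R i j = pderiv ⟨(i, j), h⟩ := by simp [pd, h]
theorem pd_gt {i j : ℕ} (h : j < i) : pd R i j = - pderiv ⟨(j, i), h⟩ := by
  simp [pd, h, not_lt_of_gt h]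
theorem pd_self (i : ℕ) : pd R i i = 0 := by simp [pd]

theorem pderiv_a (v : V) (k l : ℕ) : pderiv v (a R k l)
    = (dl R v.1.1 k * dl R v.1.2 l - dl R v.1.1 l * dl R v.1.2 k) • (1 : MvPolynomial V R) := by
  refine skew_ext (pderiv v : Der R).toLinearMap.toAddMonoidHom
    (fun k l => (dl R v.1.1 k * dl R v.1.2 l - dl R v.1.1 l * dl R v.1.2 k) •
      (1 : MvPolynomial V R)) (fun i => by simp) (fun i j => by module) (fun w => ?_) k l
  obtain ⟨⟨p, q⟩, hv⟩ := v
  obtain ⟨⟨p', q'⟩, hw⟩ := w
  change pderiv _ (X _) = _
  dsimp only at hv hw ⊢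
  have h1 : dl R p q' * dl R q p' = 0 := by
    unfold dl; split_ifs <;> first | omega | simp
  rw [h1, sub_zero, pderiv_X]
  by_cases h : p = p' ∧ q = q'
  · obtain ⟨rfl, rfl⟩ := h; simp [dl]
  · have : dl R p p' * dl R q q' = 0 := by
      unfold dl; split_ifs <;> first | tauto | simp
    rw [this, zero_smul, Pi.single_eq_of_ne]
    intro e; apply h
    have := congrArg Subtype.val e
    simp only [Prod.mk.injEq] at this
    exact ⟨this.1.symm, this.2.symm⟩

theorem pd_a (i j k l : ℕ) : pd R i j (a R k l)
    = (dl R i k * dl R j l - dl R i l * dl R j k) • (1 : MvPolynomial V R) := by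
  rcases lt_trichotomy i j with h | h | h
  · rw [pd_lt h, pderiv_a]
  · subst h; rw [pd_self, mul_comm]; simp
  · rw [pd_gt h, Derivation.neg_apply, pderiv_a]; module

theorem comm_pd (i j r s : ℕ) (g : MvPolynomial V R) :
    pd R i j (D R s r g) = D R s r (pd R i j g) + (dl R i s • pd R r j g + dl R j s • pd R i r g) := by
  have : ⁅pd R i j, D R s r⁆ = dl R i s • pd R r j + dl R j s • pd R i r := by
    apply der_ext
    intro k l
    rw [Derivation.commutator_apply, D_a, pd_a]
    simp only [dA, map_add, Derivation.map_smul, pd_a, Derivation.add_apply,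
      Derivation.smul_apply, Derivation.map_one_eq_zero]
    rw [dl_comm k r, dl_comm l r]
    module
  have h := DFunLike.congr_fun this g
  rw [Derivation.commutator_apply] at h
  simp only [Derivation.add_apply, Derivation.smul_apply] at h
  rw [← h]; abel

noncomputable def fac (u : V →₀ ℕ) : ℕ := u.prod fun _ k => k.factorial

theorem fac_pos (u : V →₀ ℕ) : 0 < fac u :=
  Finset.prod_pos fun _ _ => Nat.factorial_pos _

theorem fac_add (u : V →₀ ℕ) (x : V) : fac (u + Finsupp.single x 1) = fac u * (u x + 1) := by
  classical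
  have h : ∀ w : V →₀ ℕ, fac w = (w x).factorial * fac (w.erase x) := fun w =>
    (Finsupp.mul_prod_erase' w x (fun _ k => k.factorial) (fun _ => rfl)).symm
  rw [h, h u, Finsupp.erase_add, Finsupp.erase_single, add_zero]
  simp [Nat.factorial_succ]; ring

noncomputable def form (R : Type) [CommRing R] :
    MvPolynomial V R →ₗ[R] MvPolynomial V R →ₗ[R] R :=
  (basisMonomials V R).constr R (fun u => (fac u : R) • lcoeff R u)

theorem form_mono (u : V →₀ ℕ) (c : R) (g : MvPolynomial V R) :
    form R (monomial u c) g = c * (fac u * coeff u g) := by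
  have : (monomial u c : MvPolynomial V R) = c • basisMonomials V R u := by
    simp [smul_monomial]
  rw [this, map_smul, form, Module.Basis.constr_basis]
  simp

theorem form_eq (f g : MvPolynomial V R) :
    form R f g = ∑ u ∈ f.support, coeff u f * (fac u * coeff u g) := by
  conv_lhs => rw [f.as_sum]
  rw [map_sum, LinearMap.sum_apply]
  simp only [form_mono]

theorem form_symm (f g : MvPolynomial V R) : form R f g = form R g f := by
  classical
  induction f using MvPolynomial.induction_on' with
  | add p q hp hq => rw [map_add, map_add, LinearMap.add_apply, hp, hq]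
  | monomial u c =>
    induction g using MvPolynomial.induction_on' with
    | add p q hp hq => rw [map_add, map_add, LinearMap.add_apply, hp, hq]
    | monomial v d =>
      rw [form_mono, form_mono, coeff_monomial, coeff_monomial]
      by_cases h : u = v
      · subst h; simp; ring
      · simp [h, Ne.symm h]

theorem form_X (x : V) (f g : MvPolynomial V R) :
    form R (X x * f) g = form R f (pderiv x g) := by
  induction f using MvPolynomial.induction_on' with
  | add p q hp hq => rw [mul_add, map_add, map_add, LinearMap.add_apply, LinearMap.add_apply, hp, hq]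
  | monomial u c =>
    rw [X, monomial_mul, one_mul, form_mono, form_mono, coeff_pderiv, add_comm _ u, fac_add]
    push_cast; ring

theorem form_a (i j : ℕ) (f g : MvPolynomial V R) :
    form R (a R i j * f) g = form R f (pd R i j g) := by
  rcases lt_trichotomy i j with h | h | h
  · rw [a_lt h, pd_lt h, form_X]
  · subst h; simp [a_self, pd_self]
  · rw [a_gt h, pd_gt h, neg_mul, map_neg, LinearMap.neg_apply, form_X, Derivation.neg_apply,
      map_neg]

theorem coeff_zero_D (r s : ℕ) (g : MvPolynomial V R) : coeff 0 (D R r s g) = 0 := by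
  have ha : ∀ i j, coeff 0 (a R i j) = 0 := by
    intro i j; unfold a; split_ifs <;> simp
  induction g using MvPolynomial.induction_on with
  | C c => simp
  | add p q hp hq => rw [map_add, coeff_add, hp, hq, add_zero]
  | mul_X p x hp =>
    rw [Derivation.leibniz, X_eq, D_a, smul_eq_mul, smul_eq_mul, ← constantCoeff_eq] at *
    simp only [map_add, map_mul, hp, mul_zero, add_zero, dA, constantCoeff_smul, ha, smul_zero]

theorem form_D (r s : ℕ) (f g : MvPolynomial V R) :
    form R (D R r s f) g = form R f (D R s r g) := by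
  induction f using MvPolynomial.induction_on generalizing g with
  | C c =>
    rw [derivation_C, map_zero, LinearMap.zero_apply, ← monomial_zero', form_mono, coeff_zero_D]
    simp
  | add p q hp hq => rw [map_add, map_add, map_add, LinearMap.add_apply, LinearMap.add_apply, hp, hq]
  | mul_X p x hp =>
    rw [Derivation.leibniz, X_eq, D_a, smul_eq_mul, smul_eq_mul, mul_comm p (a R _ _), form_a,
      comm_pd, map_add, LinearMap.add_apply, form_a, hp, mul_comm p, dA, add_mul, smul_mul_assoc,
      smul_mul_assoc]
    simp only [map_add, map_smul, LinearMap.add_apply, LinearMap.smul_apply, form_a]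
    abel

end Pool.Agent.H.MP_1670b2_al
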