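import Pool.Agent.H.MP_1670b2_al.B

namespace Pool.Agent.H.MP_1670b2_al

open MvPolynomial

section Gen
variable {R : Type} [CommRing R]

theorem dl_smul {M : Type} [AddCommGroup M] [Module R M] (h : ℕ → M) (i j : ℕ) :
    dl R i j • h i = dl R i j • h j := by
  by_cases e : i = j
  · rw [e]
  · rw [dl_ne e, zero_smul, zero_smul]

theorem diag_coeff (Δ : Der R) (w : V → ℕ) (h : ∀ x, Δ (X x) = (w x : R) • X x)
    (f : MvPolynomial V R) (u : V →₀ ℕ) :
    coeff u (Δ f) = (Finsupp.weight w u : ℕ) * coeff u f := by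
  classical
  have key : ∀ v : V →₀ ℕ, Δ (monomial v 1) = ((Finsupp.weight w v : ℕ) : R) • monomial v 1 := by
    intro v
    induction v using Finsupp.induction_linear with
    | zero => simp
    | add v v' hv hv' =>
      have : (monomial (v + v') 1 : MvPolynomial V R) = monomial v 1 * monomial v' 1 := by
        rw [monomial_mul, one_mul]
      rw [this, Derivation.leibniz, hv, hv', map_add, smul_eq_mul, smul_eq_mul, mul_smul_comm,
        mul_smul_comm, mul_comm (monomial v' 1)]
      push_cast; module
    | single x k =>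
      rw [← X_pow_eq_monomial, Derivation.leibniz_pow, h, Finsupp.weight_single]
      cases k with
      | zero => simp
      | succ k =>
        rw [Nat.add_sub_cancel, smul_eq_mul, mul_smul_comm, ← pow_succ, smul_eq_mul]
        push_cast; module
  induction f using MvPolynomial.induction_on' with
  | add p q hp hq => rw [map_add, coeff_add, coeff_add, hp, hq, mul_add]
  | monomial v c =>
    have : (monomial v c : MvPolynomial V R) = c • monomial v 1 := by simp [smul_monomial]
    rw [this, Derivation.map_smul, key, coeff_smul, coeff_smul, coeff_smul, coeff_monomial]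
    split_ifs with e
    · subst e; simp [mul_comm]
    · simp

def Wv (k : ℕ) (x : V) : ℕ := (if x.1.1 = k then 1 else 0) + (if x.1.2 = k then 1 else 0)

noncomputable def deg (u : V →₀ ℕ) (k : ℕ) : ℕ := Finsupp.weight (Wv k) u
noncomputable def pot (u : V →₀ ℕ) : ℕ := Finsupp.weight (fun x : V => x.1.1 + x.1.2) u

theorem coeff_Dkk (k : ℕ) (f : MvPolynomial V R) (u : V →₀ ℕ) :
    coeff u (D R k k f) = (deg u k : R) * coeff u f := by
  refine diag_coeff (D R k k) (Wv k) (fun x => ?_) f u
  rw [X_eq, D_a, dA, ← dl_smul (fun i => a R i x.1.2), ← dl_smul (fun i => a R x.1.1 i)]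
  simp only [Wv, dl]; push_cast; module

theorem pot_eq (u : V →₀ ℕ) (K : ℕ) (h : ∀ x ∈ u.support, x.1.2 < K) :
    pot u = ∑ k ∈ Finset.range K, k * deg u k := by
  simp only [pot, deg, Finsupp.weight_apply, Finsupp.sum, Finset.mul_sum, smul_eq_mul]
  rw [Finset.sum_comm]
  refine Finset.sum_congr rfl fun x hx => ?_
  have h2 := h x hx
  have h1 : x.1.1 < K := lt_trans x.2 h2
  simp only [Wv, mul_add, mul_ite, mul_one, mul_zero, Finset.sum_add_distrib, Finset.sum_ite_eq,
    Finset.mem_range, h1, h2, if_true]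
  ring

theorem exists_bd (u : V →₀ ℕ) : ∃ K, ∀ x ∈ u.support, x.1.2 < K :=
  ⟨u.support.sup (fun x => x.1.2) + 1, fun _ hx =>
    Nat.lt_succ_of_le (Finset.le_sup (f := fun x : V => x.1.2) hx)⟩

theorem deg_zero (u : V →₀ ℕ) (K : ℕ) (h : ∀ x ∈ u.support, x.1.2 < K) (k : ℕ) (hk : K ≤ k) :
    deg u k = 0 := by
  simp only [deg, Finsupp.weight_apply, Finsupp.sum]
  refine Finset.sum_eq_zero fun x hx => ?_
  have h2 := h x hx
  have h1 := x.2
  rw [Wv, if_neg (by omega), if_neg (by omega)]; simp

theorem pot_shift (u v : V →₀ ℕ) (r s : ℕ)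
    (h : ∀ k, 1 ≤ k → deg v k + (if k = s then 1 else 0) = deg u k + (if k = r then 1 else 0)) :
    pot v + s = pot u + r := by
  obtain ⟨K1, h1⟩ := exists_bd u
  obtain ⟨K2, h2⟩ := exists_bd v
  have e : ∀ t, t < K1 + K2 + r + s + 1 →
      t = ∑ k ∈ Finset.range (K1 + K2 + r + s + 1), k * (if k = t then 1 else 0) := by
    intro t ht; simp [ht]
  rw [pot_eq u (K1 + K2 + r + s + 1) (fun x hx => by have := h1 x hx; omega),
    pot_eq v (K1 + K2 + r + s + 1) (fun x hx => by have := h2 x hx; omega)]
  conv_lhs => enter [2]; rw [e s (by omega)]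
  conv_rhs => enter [2]; rw [e r (by omega)]
  rw [← Finset.sum_add_distrib, ← Finset.sum_add_distrib]
  refine Finset.sum_congr rfl fun k _ => ?_
  rcases Nat.eq_zero_or_pos k with e0 | e0
  · simp [e0]
  · rw [← mul_add, ← mul_add, h k e0]

def Wt (lam : ℕ → R) (f : MvPolynomial V R) : Prop := ∀ k, 1 ≤ k → D R k k f = lam k • f

def Hw (f : MvPolynomial V R) : Prop := ∀ r s, 1 ≤ r → r < s → D R r s f = 0

def Stable (M : Submodule R (MvPolynomial V R)) : Prop :=
  ∀ r s, 1 ≤ r → 1 ≤ s → ∀ f ∈ M, D R r s f ∈ M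

theorem wt_D {lam : ℕ → R} {f : MvPolynomial V R} (h : Wt lam f) (r s : ℕ) :
    Wt (fun k => lam k + dl R k r - dl R k s) (D R r s f) := by
  intro k hk
  rw [comm_DD, h k hk, Derivation.map_smul, ← dl_smul (fun i => D R i s f),
    dl_smul (fun i => D R r i f), dl_comm r k]
  module

theorem wt_of_supp {lam : ℕ → R} {f : MvPolynomial V R}
    (h : ∀ u ∈ f.support, ∀ k, 1 ≤ k → (deg u k : R) = lam k) : Wt lam f := by
  intro k hk
  ext u
  rw [coeff_Dkk, coeff_smul, smul_eq_mul]
  by_cases e : u ∈ f.support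
  · rw [h u e k hk]
  · rw [notMem_support_iff.1 e, mul_zero, mul_zero]

open Classical in
noncomputable def proj (lam : ℕ → R) (f : MvPolynomial V R) : MvPolynomial V R :=
  ∑ u ∈ f.support with (∀ k, 1 ≤ k → (deg u k : R) = lam k), monomial u (coeff u f)

open Classical in
theorem coeff_proj (lam : ℕ → R) (f : MvPolynomial V R) (u : V →₀ ℕ) :
    coeff u (proj lam f) = if (∀ k, 1 ≤ k → (deg u k : R) = lam k) then coeff u f else 0 := by
  rw [proj, coeff_sum]
  simp only [coeff_monomial, Finset.sum_ite_eq', Finset.mem_filter, mem_support_iff]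
  by_cases e : coeff u f = 0 <;> simp [e]

theorem wt_proj (lam : ℕ → R) (f : MvPolynomial V R) : Wt lam (proj lam f) :=
  wt_of_supp fun u hu => by
    by_contra e
    rw [mem_support_iff, coeff_proj, if_neg e] at hu
    exact hu rfl

end Gen

variable {F : Type} [Field F]

theorem wt_supp {lam : ℕ → F} {f : MvPolynomial V F} (h : Wt lam f) {u : V →₀ ℕ}
    (hu : u ∈ f.support) (k : ℕ) (hk : 1 ≤ k) : (deg u k : F) = lam k := by
  have := congrArg (coeff u) (h k hk)
  rw [coeff_Dkk, coeff_smul, smul_eq_mul] at this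
  exact mul_right_cancel₀ (mem_support_iff.1 hu) this

theorem form_proj {lam : ℕ → F} {f : MvPolynomial V F} (h : Wt lam f) (g : MvPolynomial V F) :
    form F f (proj lam g) = form F f g := by
  rw [form_eq, form_eq]
  refine Finset.sum_congr rfl fun u hu => ?_
  rw [coeff_proj, if_pos (wt_supp h hu)]

theorem proj_mem {M : Submodule F (MvPolynomial V F)} (hM : Stable M) (lam : ℕ → F) :
    ∀ f ∈ M, proj lam f ∈ M := by
  classical
  have key : ∀ n, ∀ f ∈ M, (f.support.filter
      (fun u => ¬ ∀ k, 1 ≤ k → (deg u k : F) = lam k)).card = n → proj lam f ∈ M := by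
    intro n
    induction n using Nat.strong_induction_on with
    | _ n ih =>
      intro f hf hn
      by_cases e : ∀ u ∈ f.support, ∀ k, 1 ≤ k → (deg u k : F) = lam k
      · have : proj lam f = f := by
          ext u
          rw [coeff_proj]
          split_ifs with e2
          · rfl
          · by_contra e3
            exact e2 (e u (mem_support_iff.2 (Ne.symm e3)))
        rwa [this]
      · push Not at e
        obtain ⟨u, hu, k, hk, hne⟩ := e
        have hg : D F k k f - (deg u k : F) • f ∈ M :=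
          M.sub_mem (hM k k hk hk f hf) (M.smul_mem _ hf)
        have hc : ∀ v, coeff v (D F k k f - (deg u k : F) • f)
            = ((deg v k : F) - deg u k) * coeff v f := by
          intro v; rw [coeff_sub, coeff_Dkk, coeff_smul, smul_eq_mul]; ring
        have h1 := ih _ (by
          rw [← hn]
          apply Finset.card_lt_card
          refine ⟨fun v hv => ?_, fun hs => ?_⟩
          · rw [Finset.mem_filter, mem_support_iff] at hv ⊢
            refine ⟨fun e0 => hv.1 (by rw [hc, e0, mul_zero]), hv.2⟩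
          · have := hs (Finset.mem_filter.2 ⟨hu, fun e0 => hne (e0 k hk)⟩)
            rw [Finset.mem_filter, mem_support_iff, hc, sub_self, zero_mul] at this
            exact this.1 rfl) _ hg rfl
        have h2 : proj lam f = (lam k - deg u k)⁻¹ • proj lam (D F k k f - (deg u k : F) • f) := by
          ext v
          rw [coeff_smul, coeff_proj, coeff_proj, hc]
          split_ifs with e2
          · rw [e2 k hk, smul_eq_mul, ← mul_assoc, inv_mul_cancel₀ (sub_ne_zero.2 hne.symm), one_mul]
          · simp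
        rw [h2]; exact M.smul_mem _ h1
  exact fun f hf => key _ f hf rfl

variable [CharZero F]

theorem pot_D {lam : ℕ → F} {f : MvPolynomial V F} (h : Wt lam f) (r s : ℕ) {u v : V →₀ ℕ}
    (hu : u ∈ f.support) (hv : v ∈ (D F r s f).support) : pot v + s = pot u + r := by
  apply pot_shift
  intro k hk
  have h1 := wt_supp h hu k hk
  have h2 := wt_supp (wt_D h r s) hv k hk
  have : ((deg v k + (if k = s then 1 else 0) : ℕ) : F)
      = ((deg u k + (if k = r then 1 else 0) : ℕ) : F) := by
    push_cast; rw [h1, h2]; simp only [dl]; ring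
  exact_mod_cast this

theorem pot_wt {lam : ℕ → F} {f g : MvPolynomial V F} (h : Wt lam f) (h' : Wt lam g)
    {u v : V →₀ ℕ} (hu : u ∈ f.support) (hv : v ∈ g.support) : pot v = pot u := by
  have := pot_shift u v 0 0 (fun k hk => by
    have h1 := wt_supp h hu k hk
    have h2 := wt_supp h' hv k hk
    have : (deg v k : F) = deg u k := by rw [h1, h2]
    have : deg v k = deg u k := by exact_mod_cast this
    rw [this])
  simpa using this

theorem exists_hw {M : Submodule F (MvPolynomial V F)} (hM : Stable M) {f : MvPolynomial V F}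
    (hf : f ∈ M) (h0 : f ≠ 0) : ∃ h ∈ M, h ≠ 0 ∧ (∃ lam, Wt lam h) ∧ Hw h := by
  have key : ∀ n, ∀ f ∈ M, ∀ lam, Wt lam f → ∀ u ∈ f.support, pot u = n →
      ∃ h ∈ M, h ≠ 0 ∧ (∃ lam, Wt lam h) ∧ Hw h := by
    intro n
    induction n using Nat.strong_induction_on with
    | _ n ih =>
      intro f hf lam hw u hu hn
      by_cases e : Hw f
      · exact ⟨f, hf, by rintro rfl; simp at hu, ⟨lam, hw⟩, e⟩
      · unfold Hw at e
        push Not at e
        obtain ⟨r, s, hr, hs, hne⟩ := e
        obtain ⟨v, hv⟩ := support_nonempty.2 hne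
        have := pot_D hw r s hu hv
        exact ih (pot v) (by omega) _ (hM r s hr (by omega) f hf) _ (wt_D hw r s) v hv rfl
  obtain ⟨u, hu⟩ := support_nonempty.2 h0
  refine key _ _ (proj_mem hM (fun k => deg u k) f hf) _ (wt_proj _ f) u ?_ rfl
  rw [mem_support_iff, coeff_proj, if_pos (fun _ _ => rfl)]
  exact mem_support_iff.1 hu

theorem dominant {lam : ℕ → F} {h : MvPolynomial V F} (hw : Wt lam h) (hh : Hw h) (h0 : h ≠ 0)
    (k : ℕ) (hk : 1 ≤ k) : ∃ n : ℕ, lam k = lam (k + 1) + n := by
  classical
  let v : ℕ → MvPolynomial V F := fun n => (D F (k + 1) k)^[n] h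
  have hs : ∀ n, v (n + 1) = D F (k + 1) k (v n) := fun n => Function.iterate_succ_apply' _ _ _
  have hwt : ∀ n : ℕ, Wt (fun j => lam j + n * (dl F j (k + 1) - dl F j k)) (v n) := by
    intro n
    induction n with
    | zero => simp only [Nat.cast_zero, zero_mul, add_zero]; exact hw
    | succ n ih =>
      rw [hs]
      convert wt_D ih (k + 1) k using 2
      push_cast; ring
  have hE : ∀ n : ℕ, D F k (k + 1) (v (n + 1))
      = (((n : F) + 1) * (lam k - lam (k + 1) - n)) • v n := by
    intro n
    induction n with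
    | zero =>
      rw [hs, comm_DD, hwt 0 k hk, hwt 0 (k + 1) (by omega), dl_self, dl_self]
      have : D F k (k + 1) (v 0) = 0 := hh k (k + 1) hk (by omega)
      rw [this, map_zero]
      module
    | succ n ih =>
      rw [hs, comm_DD, ih, hwt _ k hk, hwt _ (k + 1) (by omega), dl_self, dl_self,
        Derivation.map_smul, ← hs]
      simp only [dl_self, dl_ne (by omega : k ≠ k + 1), dl_ne (by omega : k + 1 ≠ k)]
      push_cast; module
  obtain ⟨u, hu⟩ := support_nonempty.2 h0
  have hex : ∃ n, v n = 0 := by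
    refine ⟨deg u k + 1, by_contra fun e => ?_⟩
    obtain ⟨w, hw'⟩ := support_nonempty.2 e
    have h1 := wt_supp (hwt _) hw' k hk
    rw [← wt_supp hw hu k hk, dl_self, dl_ne (by omega : k ≠ k + 1)] at h1
    have : ((deg w k + 1 : ℕ) : F) = 0 := by push_cast at h1 ⊢; linear_combination h1
    exact Nat.succ_ne_zero _ (Nat.cast_eq_zero.1 this)
  have h1 := Nat.find_spec hex
  rcases e : Nat.find hex with _ | n
  · rw [e] at h1; exact absurd h1 h0
  · rw [e] at h1
    have h2 := Nat.find_min hex (show n < Nat.find hex by omega)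
    have h3 := hE n
    rw [h1, map_zero] at h3
    have h4 := (smul_eq_zero.1 h3.symm).resolve_right h2
    have h5 := (mul_eq_zero.1 h4).resolve_left (Nat.cast_add_one_ne_zero n)
    exact ⟨n, by linear_combination h5⟩

end Pool.Agent.H.MP_1670b2_al
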