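import Pool.Agent.H.MP_1670b2_al.C

namespace Pool.Agent.H.MP_1670b2_al

open MvPolynomial

def tv (i : ℕ) : V := ⟨(i, i + 1), Nat.lt_succ_self i⟩

variable {F : Type} [Field F]

theorem form_mon_a (f : MvPolynomial V F) (w : V →₀ ℕ) (c : F) (i p q : ℕ) (hp : i < p)
    (hq : i < q) (h : ∀ x : V, i < x.1.1 → coeff (w + Finsupp.single x 1) f = 0) :
    form F f (monomial w c * a F p q) = 0 := by
  have key : ∀ x : V, i < x.1.1 → form F f (monomial w c * X x) = 0 := by
    intro x hx
    rw [X, monomial_mul, form_symm, form_mono, h x hx]; simp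
  rcases lt_trichotomy p q with e | e | e
  · rw [a_lt e]; exact key _ hp
  · subst e; simp [a_self]
  · rw [a_gt e, mul_neg, map_neg, key _ hq, neg_zero]

theorem lead_t [CharZero F] {f : MvPolynomial V F} (hf : Hw f) (h0 : f ≠ 0) :
    ∃ u ∈ f.support, ∀ x ∈ u.support, x.1.2 = x.1.1 + 1 := by
  classical
  obtain ⟨u, hu, hmax⟩ := Finset.exists_max_image f.support
    (fun u => (toLex (fun i => u (tv i)) : Lex (ℕ → ℕ))) (support_nonempty.2 h0)
  refine ⟨u, hu, by_contra fun hne => ?_⟩
  have hex : ∃ i, ∃ x ∈ u.support, x.1.1 = i ∧ x.1.2 ≠ x.1.1 + 1 := by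
    push Not at hne
    obtain ⟨x, hx, h⟩ := hne
    exact ⟨_, x, hx, rfl, h⟩
  obtain ⟨x, hx, hxi, hxn⟩ := Nat.find_spec hex
  have hmin : ∀ y ∈ u.support, y.1.1 < x.1.1 → y.1.2 = y.1.1 + 1 := by
    intro y hy hlt
    by_contra e
    exact Nat.find_min hex (hxi ▸ hlt) ⟨y, hy, rfl, e⟩
  clear hxi
  obtain ⟨⟨i, j⟩, hij⟩ := x
  dsimp only at hij hxn hmin
  set x : V := ⟨(i, j), hij⟩ with hxdef
  have hxt : ∀ k, tv k ≠ x := by
    intro k e
    have := congrArg Subtype.val e
    simp only [tv, hxdef, Prod.mk.injEq] at this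
    omega
  have hux : 1 ≤ u x := Nat.one_le_iff_ne_zero.2 (Finsupp.mem_support_iff.1 hx)
  set u' : V →₀ ℕ := u - Finsupp.single x 1 + Finsupp.single (tv i) 1 with hu'
  have h1 : form F f (D F j (i + 1) (monomial u' 1)) = 0 := by
    rw [← form_D, hf (i + 1) j (by omega) (by omega), map_zero, LinearMap.zero_apply]
  rw [D, mkDerivation_monomial, one_smul, Finsupp.sum, map_sum,
    Finset.sum_eq_single (tv i)] at h1
  · have e1 : dA F j (i + 1) (tv i).1.1 (tv i).1.2 = X x := by
      simp only [tv, dA]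
      rw [dl_self, dl_ne (by omega), a_lt hij]; simp [hxdef]
    have e2 : u' - Finsupp.single (tv i) 1 + Finsupp.single x 1 = u := by
      rw [hu', add_tsub_cancel_right, tsub_add_cancel_of_le (Finsupp.single_le_iff.2 hux)]
    rw [e1, smul_eq_mul, X, monomial_mul, e2, form_symm, form_mono, mul_one] at h1
    have e3 : u' (tv i) ≠ 0 := by simp [hu']
    exact mul_ne_zero (Nat.cast_ne_zero.2 e3) (mul_ne_zero (Nat.cast_ne_zero.2 (fac_pos u).ne')
      (mem_support_iff.1 hu)) h1
  · intro y hy hyt
    rw [smul_eq_mul, dA, mul_add, mul_smul_comm, mul_smul_comm, map_add, map_smul, map_smul]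
    have e1 : dl F y.1.2 (i + 1) = 0 := by
      apply dl_ne
      intro e
      have hy1 : y.1.1 < i := by
        have := y.2
        by_contra e2
        apply hyt
        apply Subtype.ext
        apply Prod.ext
        · change y.1.1 = i; omega
        · exact e
      have : y ∈ u.support := by
        rw [Finsupp.mem_support_iff] at hy ⊢
        intro e2
        apply hy
        simp [hu', e2, Finsupp.single_eq_of_ne hyt]
      have := hmin y this hy1
      omega
    rw [e1, zero_smul, add_zero]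
    by_cases e2 : y.1.1 = i + 1
    · rw [form_mon_a f _ _ i j y.1.2 (by omega) (by have := y.2; omega), smul_zero]
      intro z hz
      by_contra e3
      have h2 := hmax _ (mem_support_iff.2 e3)
      apply not_lt_of_ge h2
      have hv : ∀ k, k ≤ i → (u' - Finsupp.single y 1 + Finsupp.single z 1 : V →₀ ℕ) (tv k)
          = u (tv k) + (Finsupp.single (tv i) 1 : V →₀ ℕ) (tv k) := by
        intro k hk
        have n1 : tv k ≠ y := by rintro rfl; simp only [tv] at e2; omega
        have n2 : tv k ≠ z := by rintro rfl; simp only [tv] at hz; omega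
        simp [hu', Finsupp.single_eq_of_ne n1, Finsupp.single_eq_of_ne n2,
          Finsupp.single_eq_of_ne (hxt k)]
      refine ⟨i, fun k hk => ?_, ?_⟩
      · have n1 : tv k ≠ tv i := by
          intro e; have := congrArg (fun t : V => t.1.1) e; simp only [tv] at this; omega
        change u (tv k) = (u' - Finsupp.single y 1 + Finsupp.single z 1 : V →₀ ℕ) (tv k)
        rw [hv k hk.le, Finsupp.single_eq_of_ne n1, add_zero]
      · change u (tv i) < (u' - Finsupp.single y 1 + Finsupp.single z 1 : V →₀ ℕ) (tv i)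
        rw [hv i le_rfl]; simp
    · rw [dl_ne e2, zero_smul]
  · intro h; exfalso; apply h; simp [hu']

theorem deg_t (u : V →₀ ℕ) (h : ∀ x ∈ u.support, x.1.2 = x.1.1 + 1) (i : ℕ) :
    deg u (i + 1) = u (tv i) + u (tv (i + 1)) := by
  classical
  have n1 : tv i ≠ tv (i + 1) := by
    intro e; have := congrArg (fun t : V => t.1.1) e; simp only [tv] at this; omega
  rw [deg, Finsupp.weight_apply, Finsupp.sum,
    Finset.sum_congr_of_eq_on_inter (s₂ := {tv i, tv (i + 1)})
      (g := fun x => u x • Wv (i + 1) x) ?_ ?_ (fun _ _ _ => rfl), Finset.sum_pair n1]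
  · simp [Wv, tv]
  · intro x hx hn
    have h1 := h x hx
    simp only [Finset.mem_insert, Finset.mem_singleton, not_or] at hn
    have h2 : x.1.1 ≠ i + 1 := fun e => hn.2 (Subtype.ext (Prod.ext e (by rw [h1, e]; rfl)))
    have h3 : x.1.2 ≠ i + 1 := fun e => hn.1 (Subtype.ext (Prod.ext (by change x.1.1 = i; omega) e))
    simp [Wv, h2, h3]
  · intro x _ hn
    rw [Finsupp.notMem_support_iff.1 hn, zero_smul]

theorem t_uniq (u v : V →₀ ℕ) (hu : ∀ x ∈ u.support, x.1.2 = x.1.1 + 1)
    (hv : ∀ x ∈ v.support, x.1.2 = x.1.1 + 1) (h : ∀ k, 1 ≤ k → deg u k = deg v k) : u = v := by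
  obtain ⟨K1, h1⟩ := exists_bd u
  obtain ⟨K2, h2⟩ := exists_bd v
  have key : ∀ d i, K1 + K2 ≤ i + d → u (tv i) = v (tv i) := by
    intro d
    induction d with
    | zero =>
      intro i hi
      have e1 : u (tv i) = 0 := by
        by_contra e; have := h1 _ (Finsupp.mem_support_iff.2 e); simp only [tv] at this; omega
      have e2 : v (tv i) = 0 := by
        by_contra e; have := h2 _ (Finsupp.mem_support_iff.2 e); simp only [tv] at this; omega
      rw [e1, e2]
    | succ d ih =>
      intro i hi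
      have e1 := ih (i + 1) (by omega)
      have e2 := h (i + 1) (by omega)
      rw [deg_t u hu, deg_t v hv] at e2
      omega
  ext x
  by_cases e : x.1.2 = x.1.1 + 1
  · have : x = tv x.1.1 := Subtype.ext (Prod.ext rfl e)
    rw [this]; exact key (K1 + K2) _ (by omega)
  · rw [Finsupp.notMem_support_iff.1 (fun hx => e (hu x hx)),
      Finsupp.notMem_support_iff.1 (fun hx => e (hv x hx))]

theorem hw_uniq [CharZero F] {f g : MvPolynomial V F} {lam : ℕ → F} (hf : Hw f) (hg : Hw g)
    (wf : Wt lam f) (wg : Wt lam g) (h0 : f ≠ 0) : ∃ c : F, g = c • f := by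
  obtain ⟨u, hu, hut⟩ := lead_t hf h0
  refine ⟨coeff u g / coeff u f, by_contra fun e => ?_⟩
  have hw : Hw (g - (coeff u g / coeff u f) • f) := fun r s hr hs => by
    rw [map_sub, Derivation.map_smul, hf r s hr hs, hg r s hr hs, smul_zero, sub_zero]
  have ww : Wt lam (g - (coeff u g / coeff u f) • f) := fun k hk => by
    rw [map_sub, Derivation.map_smul, wf k hk, wg k hk]; module
  obtain ⟨v, hv, hvt⟩ := lead_t hw (sub_ne_zero.2 e)
  have : v = u := t_uniq v u hvt hut fun k hk => by
    have : (deg v k : F) = deg u k := by rw [wt_supp ww hv k hk, wt_supp wf hu k hk]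
    exact_mod_cast this
  rw [this, mem_support_iff, coeff_sub, coeff_smul, smul_eq_mul,
    div_mul_cancel₀ _ (mem_support_iff.1 hu), sub_self] at hv
  exact hv rfl

end Pool.Agent.H.MP_1670b2_al
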