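import Pool.Agent.H.MP_1670b2_al.D

namespace Pool.Agent.H.MP_1670b2_al

open MvPolynomial

variable {R : Type} [CommRing R]

noncomputable def bf (c : ℕ → ℕ → R) : LinearMap.BilinForm R (ℕ →₀ R) :=
  Finsupp.linearCombination R (fun i => Finsupp.linearCombination R (c i))

noncomputable def ee (R : Type) [CommRing R] (i : ℕ) : ℕ →₀ R := Finsupp.single i 1

theorem bf_ee (c : ℕ → ℕ → R) (i j : ℕ) : bf c (ee R i) (ee R j) = c i j := by
  simp [bf, ee]

theorem bf_alt (c : ℕ → ℕ → R) (h0 : ∀ i, c i i = 0) (hs : ∀ i j, c j i = - c i j)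
    (x : ℕ →₀ R) : bf c x x = 0 := by
  have hsk : ∀ x y, bf c y x = - bf c x y := by
    intro x y
    induction x using Finsupp.induction_linear with
    | zero => simp
    | add x x' h h' => rw [map_add, map_add, LinearMap.add_apply, h, h']; ring
    | single i r =>
      induction y using Finsupp.induction_linear with
      | zero => simp
      | add y y' h h' => rw [map_add, map_add, LinearMap.add_apply, h, h']; ring
      | single j t => simp [bf, hs i j]; ring
  induction x using Finsupp.induction_linear with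
  | zero => simp
  | add x y h h' =>
    simp only [map_add, LinearMap.add_apply, h, h', hsk x y]; ring
  | single i r => simp [bf, h0]

noncomputable def P (R : Type) [CommRing R] (l : List ℕ) : MvPolynomial V R :=
  tau (bf (a R)) (bf_alt _ a_self a_skew) (pr (l.map (ee _)))

theorem P_nil : P R [] = 1 := tau_one _ _

theorem P_perm {l l' : List ℕ} (h : l.Perm l') : ∃ c : ℤ, c * c = 1 ∧ P R l = c • P R l' := by
  obtain ⟨c, hc, H⟩ := pr_perm h
  exact ⟨c, hc, by rw [P, H, map_zsmul, P]⟩

theorem P_mem (S : Subring (MvPolynomial V R)) (T : ℕ → Prop)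
    (hT : ∀ i j, T i → T j → a R i j ∈ S) (l : List ℕ) (hl : ∀ x ∈ l, T x) : P R l ∈ S :=
  pf_mem1 _ _ _ S T (fun i j hi hj => by rw [bf_ee]; exact hT i j hi hj) l hl

def kerS (Δ : Der R) : Subring (MvPolynomial V R) where
  carrier := {f | Δ f = 0}
  mul_mem' := fun {x y} hx hy => by
    change Δ _ = 0 at *
    rw [Derivation.leibniz, hx, hy]; simp
  one_mem' := Δ.map_one_eq_zero
  add_mem' := fun {x y} hx hy => by
    change Δ _ = 0 at *
    rw [map_add, hx, hy]; simp
  zero_mem' := map_zero Δ
  neg_mem' := fun {x} hx => by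
    change Δ _ = 0 at *
    rw [map_neg, hx]; simp

theorem D_P_out (r s : ℕ) (l : List ℕ) (h : s ∉ l) : D R r s (P R l) = 0 :=
  P_mem (kerS (D R r s)) (· ≠ s) (fun i j hi hj => by
    change D R r s _ = 0
    rw [D_a, dA, dl_ne hi, dl_ne hj]; simp) l (fun x hx e => h (e ▸ hx))

theorem pd_P_out (i j : ℕ) (l : List ℕ) (h : i ∉ l ∨ j ∉ l) : pd R i j (P R l) = 0 := by
  rcases h with h | h
  · exact P_mem (kerS (pd R i j)) (i ≠ ·) (fun p q hp hq => by
      change pd R i j _ = 0
      rw [pd_a, dl_ne hp, dl_ne hq]; simp) l (fun x hx e => h (e ▸ hx))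
  · exact P_mem (kerS (pd R i j)) (j ≠ ·) (fun p q hp hq => by
      change pd R i j _ = 0
      rw [pd_a, dl_ne hp, dl_ne hq]; simp) l (fun x hx e => h (e ▸ hx))

theorem pd_P (i j : ℕ) (l : List ℕ) (hij : i ≠ j) (hi : i ∉ l) (hj : j ∉ l) :
    pd R i j (P R (i :: j :: l)) = - P R l := by
  have := pf_two (bf (a R)) (bf_alt _ a_self a_skew) (ee _) (kerS (pd R i j)) (i ≠ ·)
    (fun p q hp hq => by
      change pd R i j _ = 0
      rw [bf_ee, pd_a, dl_ne hp, dl_ne hq]; simp) i j l hij (fun x hx e => hi (e ▸ hx))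
    (fun x hx => by
      change pd R i j _ = 0
      rw [bf_ee, pd_a, dl_ne (show j ≠ x from fun e => hj (e ▸ hx)), dl_ne hij.symm]; simp)
  change pd R i j (P R (i :: j :: l) + _ * P R l) = 0 at this
  rw [bf_ee, map_add, Derivation.leibniz, pd_P_out i j l (Or.inl hi), pd_a, dl_self, dl_self,
    dl_ne hij] at this
  simp only [mul_zero, mul_one, zero_mul, sub_zero, one_smul, smul_eq_mul, zero_add] at this
  exact eq_neg_of_add_eq_zero_left this

noncomputable def Sg (R : Type) [CommRing R] (r s : ℕ) :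
    MvPolynomial V R →ₐ[R] Polynomial (MvPolynomial V R) :=
  aeval fun v => Polynomial.C (X v) + Polynomial.X * Polynomial.C (dA R r s v.1.1 v.1.2)

theorem Sg_a (r s i j : ℕ) : Sg R r s (a R i j)
    = Polynomial.C (a R i j) + Polynomial.X * Polynomial.C (dA R r s i j) :=
  skew_ext (Sg R r s).toLinearMap.toAddMonoidHom
    (fun i j => Polynomial.C (a R i j) + Polynomial.X * Polynomial.C (dA R r s i j))
    (fun i => by simp [a_self, dA_self])
    (fun i j => by rw [a_skew, dA_skew]; simp only [map_neg]; ring)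
    (fun v => by rw [← X_eq]; exact aeval_X _ v) i j

theorem Sg_coeff (r s : ℕ) (f : MvPolynomial V R) :
    (Sg R r s f).coeff 0 = f ∧ (Sg R r s f).coeff 1 = D R r s f := by
  induction f using MvPolynomial.induction_on with
  | C c =>
    rw [Sg, aeval_C, Polynomial.algebraMap_apply, derivation_C]
    simp [Polynomial.coeff_C]
  | add p q hp hq => simp [hp.1, hp.2, hq.1, hq.2]
  | mul_X p x hp =>
    rw [map_mul, Polynomial.mul_coeff_zero, Polynomial.mul_coeff_one, hp.1, hp.2, X_eq, Sg_a,
      Derivation.leibniz, D_a]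
    simp only [Polynomial.coeff_add, Polynomial.coeff_C_zero, Polynomial.coeff_X_mul_zero, add_zero,
      Polynomial.coeff_C_succ, zero_add, smul_eq_mul, true_and]
    rw [Polynomial.coeff_X_mul, Polynomial.coeff_C_zero]; ring

noncomputable def aC (R : Type) [CommRing R] (i j : ℕ) : Polynomial (MvPolynomial V R) :=
  Polynomial.C (a R i j)

theorem aC_alt (x : ℕ →₀ Polynomial (MvPolynomial V R)) : bf (aC R) x x = 0 :=
  bf_alt (aC R) (fun i => by simp [aC, a_self]) (fun i j => by rw [aC, aC, a_skew, map_neg]) x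

abbrev RP (R : Type) [CommRing R] := Polynomial (MvPolynomial V R)

noncomputable def tauC (R : Type) [CommRing R] :
    ExteriorAlgebra (RP R) (ℕ →₀ RP R) →ₗ[RP R] RP R :=
  tau (R := RP R) (M := ℕ →₀ RP R) (bf (aC R)) (aC_alt (R := R))

theorem Sg_P (r s : ℕ) (l : List ℕ) : Sg R r s (P R l)
    = tauC R (pr (l.map fun i =>
      ee (RP R) i + (dl (RP R) i s * Polynomial.X) • ee (RP R) r)) := by
  refine pf_nat _ _ _ _ _ _ (Sg R r s).toRingHom (fun i j => ?_) l
  change Sg R r s _ = _
  simp only [bf_ee, Sg_a, map_add, map_smul, LinearMap.add_apply, LinearMap.smul_apply, a_self, dA, aC]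
  by_cases h1 : i = s <;> by_cases h2 : j = s <;> simp [dl, h1, h2]
  ring

theorem C_P (l : List ℕ) : Polynomial.C (P R l)
    = tauC R (pr (l.map (ee (RP R)))) :=
  pf_nat _ _ _ _ _ _ Polynomial.C (fun i j => by simp only [bf_ee, aC]) l

theorem map_out (r s : ℕ) (l : List ℕ) (h : s ∉ l) :
    (l.map fun i => ee (Polynomial R) i + (dl (Polynomial R) i s * Polynomial.X) • ee _ r)
      = l.map (ee _) :=
  List.map_congr_left fun i hi => by
    rw [dl_ne (show i ≠ s from fun e => h (e ▸ hi)), zero_mul, zero_smul, add_zero]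

theorem pr_two {M : Type} [AddCommGroup M] [Module R M] (x y : M) (c : R) (l : List M) :
    (pr (x :: (y + c • x) :: l) : ExteriorAlgebra R M) = pr (x :: y :: l) := by
  simp only [pr_cons, map_add, map_smul, add_mul, mul_add, smul_mul_assoc, mul_smul_comm,
    ← mul_assoc, ExteriorAlgebra.ι_sq_zero, zero_mul, smul_zero, add_zero]

theorem pr_one {M : Type} [AddCommGroup M] [Module R M] (x : M) (c : R) (l : List M) :
    (pr ((x + c • x) :: l) : ExteriorAlgebra R M) = pr (x :: l) + c • pr (x :: l) := by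
  simp only [pr_cons, map_add, map_smul, add_mul, smul_mul_assoc]

theorem D_P_two (r s : ℕ) (l : List ℕ) (hrs : r ≠ s) (h : s ∉ l) :
    D R r s (P R (r :: s :: l)) = 0 := by
  have : Sg R r s (P R (r :: s :: l)) = Polynomial.C (P R (r :: s :: l)) := by
    rw [Sg_P, C_P, List.map_cons, List.map_cons, map_out r s l h, dl_ne hrs, List.map_cons,
      List.map_cons, zero_mul, zero_smul, add_zero, pr_two]
  rw [← (Sg_coeff r s _).2, this]; simp

theorem D_P_one (r : ℕ) (l : List ℕ) (h : r ∉ l) :
    D R r r (P R (r :: l)) = P R (r :: l) := by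
  have : Sg R r r (P R (r :: l))
      = Polynomial.C (P R (r :: l)) + Polynomial.X * Polynomial.C (P R (r :: l)) := by
    rw [Sg_P, C_P, List.map_cons, map_out r r l h, dl_self, List.map_cons, one_mul, pr_one,
      map_add, map_smul, smul_eq_mul]
  rw [← (Sg_coeff r r _).2, this]; simp [Polynomial.coeff_C]

def sk (t i : ℕ) : ℕ := if i < t then i else i + 2

theorem sk_lt (t : ℕ) {i j : ℕ} (h : i < j) : sk t i < sk t j := by
  unfold sk; split_ifs <;> omega

def skV (t : ℕ) (v : V) : V := ⟨(sk t v.1.1, sk t v.1.2), sk_lt t v.2⟩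

theorem sk_inj (t : ℕ) : Function.Injective (sk t) :=
  StrictMono.injective fun _ _ h => sk_lt t h

theorem skV_inj (t : ℕ) : Function.Injective (skV t) := fun v w h => by
  have := congrArg Subtype.val h
  simp only [skV, Prod.mk.injEq] at this
  exact Subtype.ext (Prod.ext (sk_inj t this.1) (sk_inj t this.2))

noncomputable def rho (R : Type) [CommRing R] (t : ℕ) : MvPolynomial V R →ₐ[R] MvPolynomial V R :=
  rename (skV t)

theorem rho_a (t i j : ℕ) : rho R t (a R i j) = a R (sk t i) (sk t j) :=
  skew_ext (rho R t).toLinearMap.toAddMonoidHom (fun i j => a R (sk t i) (sk t j))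
    (fun _ => a_self _) (fun _ _ => a_skew _ _)
    (fun v => by change rename _ _ = _; rw [rename_X, X_eq]; rfl) i j

theorem rho_P (t : ℕ) (l : List ℕ) : rho R t (P R l) = P R (l.map (sk t)) := by
  rw [P, P, List.map_map]
  exact pf_nat _ _ _ _ _ _ (rho R t).toRingHom (fun i j => by
    change rho R t _ = _
    simp only [Function.comp, bf_ee, rho_a]) l

def idx (k : ℕ) : List ℕ := List.range' (1 - k % 2) (k + k % 2)

theorem mem_idx {k x : ℕ} : x ∈ idx k ↔ 1 - k % 2 ≤ x ∧ x ≤ k := by
  rw [idx, List.mem_range'_1]; omega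

theorem nodup_idx (k : ℕ) : (idx k).Nodup := List.nodup_range'

noncomputable def hh (R : Type) [CommRing R] (k : ℕ) : MvPolynomial V R := P R (idx k)

theorem hw_hh (k : ℕ) : Hw (hh R k) := by
  intro r s hr hs
  by_cases e : s ∈ idx k
  · have hr' : r ∈ idx k := by rw [mem_idx] at *; omega
    have h1 : s ∈ (idx k).erase r := (List.mem_erase_of_ne (by omega)).2 e
    have hp : (idx k).Perm (r :: s :: ((idx k).erase r).erase s) :=
      (List.perm_cons_erase hr').trans ((List.perm_cons_erase h1).cons r)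
    obtain ⟨c, _, hc⟩ := P_perm (R := R) hp
    rw [hh, hc, map_zsmul, D_P_two r s _ (by omega)
      (((nodup_idx k).erase r).not_mem_erase), smul_zero]
  · exact D_P_out r s _ e

theorem wt_hh (k : ℕ) : Wt (fun r => if r ≤ k then 1 else 0) (hh R k) := by
  intro r hr
  by_cases e : r ≤ k
  · have hr' : r ∈ idx k := by rw [mem_idx]; omega
    obtain ⟨c, _, hc⟩ := P_perm (R := R) (List.perm_cons_erase hr')
    rw [hh, hc, map_zsmul, D_P_one r _ ((nodup_idx k).not_mem_erase)]
    simp [e]
  · rw [hh, D_P_out r r _ (by rw [mem_idx]; omega)]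
    simp [e]

theorem pd_hh (t k : ℕ) (ht : 1 ≤ t) (hk : t ≤ k + 1) :
    ∃ c : ℤ, c * c = 1 ∧ pd R t (t + 1) (hh R (k + 2)) = c • rho R t (hh R k) := by
  have n1 : t ∉ (idx k).map (sk t) := by
    simp only [List.mem_map, not_exists, not_and, sk]
    intro x _; split_ifs <;> omega
  have n2 : t + 1 ∉ (idx k).map (sk t) := by
    simp only [List.mem_map, not_exists, not_and, sk]
    intro x _; split_ifs <;> omega
  have hp : (idx (k + 2)).Perm (t :: (t + 1) :: (idx k).map (sk t)) := by
    rw [List.perm_ext_iff_of_nodup (nodup_idx _)]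
    · intro x
      simp only [List.mem_cons, List.mem_map, mem_idx, sk]
      constructor
      · intro hx
        by_cases e1 : x < t
        · exact Or.inr (Or.inr ⟨x, by omega, by rw [if_pos e1]⟩)
        · by_cases e2 : x < t + 2
          · omega
          · exact Or.inr (Or.inr ⟨x - 2, by omega, by rw [if_neg (by omega)]; omega⟩)
      · rintro (h | h | ⟨y, hy, h⟩)
        · omega
        · omega
        · split_ifs at h <;> omega
    · refine List.nodup_cons.2 ⟨?_, List.nodup_cons.2 ⟨n2, (nodup_idx k).map (sk_inj t)⟩⟩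
      simp only [List.mem_cons, not_or]
      exact ⟨by omega, n1⟩
  obtain ⟨c, hc, H⟩ := P_perm (R := R) hp
  refine ⟨-c, by linear_combination hc, ?_⟩
  rw [hh, H, map_zsmul, pd_P t (t + 1) _ (by omega) n1 n2, hh, rho_P]
  simp

theorem pd_rho_hh (t k : ℕ) : pd R t (t + 1) (rho R t (hh R k)) = 0 := by
  rw [hh, rho_P]
  apply pd_P_out
  left
  simp only [List.mem_map, not_exists, not_and, sk]
  intro x _; split_ifs <;> omega

theorem rho_hh (t k : ℕ) (h : k < t) : rho R t (hh R k) = hh R k := by
  rw [hh, rho_P]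
  congr 1
  conv_rhs => rw [← List.map_id (idx k)]
  refine List.map_congr_left fun x hx => ?_
  rw [mem_idx] at hx
  rw [sk, if_pos (by omega)]; rfl

theorem rho_inj (t : ℕ) : Function.Injective (rho R t) := rename_injective _ (skV_inj t)

theorem hh_ne [Nontrivial R] (k : ℕ) : hh R k ≠ 0 := by
  induction k using Nat.strong_induction_on with
  | _ k ih =>
    match k with
    | 0 => change P R [] ≠ 0; rw [P_nil]; exact one_ne_zero
    | 1 =>
      intro e
      have := pd_P (R := R) 0 1 [] (by omega) (by simp) (by simp)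
      change P R [0, 1] = 0 at e
      rw [e, map_zero, P_nil] at this
      simp at this
    | k + 2 =>
      intro e
      obtain ⟨c, hc, H⟩ := pd_hh (R := R) (k + 1) k (by omega) le_rfl
      rw [e, map_zero, rho_hh _ _ (by omega)] at H
      have := congrArg (c • ·) H
      simp only [smul_zero, ← mul_smul, hc, one_smul] at this
      exact ih k (by omega) this.symm

end Pool.Agent.H.MP_1670b2_al
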