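import Pool.Agent.H.MP_1670b2_al.E

namespace Pool.Agent.H.MP_1670b2_al

open MvPolynomial

variable {F : Type} [Field F]

noncomputable def hp (F : Type) [Field F] (C : Multiset ℕ) : MvPolynomial V F :=
  (C.map (hh F)).prod

theorem hp_zero : hp F 0 = 1 := rfl
theorem hp_cons (k : ℕ) (C : Multiset ℕ) : hp F (k ::ₘ C) = hh F k * hp F C := by simp [hp]
theorem hp_add (C C' : Multiset ℕ) : hp F (C + C') = hp F C * hp F C' := by simp [hp]

theorem hp_ne (C : Multiset ℕ) : hp F C ≠ 0 := by
  induction C using Multiset.induction_on with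
  | empty => exact one_ne_zero
  | cons k C ih => rw [hp_cons]; exact mul_ne_zero (hh_ne k) ih

theorem hw_hp (C : Multiset ℕ) : Hw (hp F C) := by
  induction C using Multiset.induction_on with
  | empty => exact fun r s _ _ => Derivation.map_one_eq_zero _
  | cons k C ih =>
    intro r s hr hs
    rw [hp_cons, Derivation.leibniz, ih r s hr hs, hw_hh k r s hr hs]; simp

theorem wt_mul {l m : ℕ → F} {f g : MvPolynomial V F} (hf : Wt l f) (hg : Wt m g) :
    Wt (fun k => l k + m k) (f * g) := fun k hk => by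
  rw [Derivation.leibniz, hf k hk, hg k hk, smul_eq_mul, smul_eq_mul, mul_smul_comm, mul_smul_comm,
    mul_comm g]
  module

theorem wt_one : Wt (fun _ => 0) (1 : MvPolynomial V F) := fun k _ => by
  rw [Derivation.map_one_eq_zero, zero_smul]

theorem wt_hp (C : Multiset ℕ) : ∃ l, Wt l (hp F C) := by
  induction C using Multiset.induction_on with
  | empty => exact ⟨_, wt_one⟩
  | cons k C ih =>
    obtain ⟨l, hl⟩ := ih
    exact ⟨_, by rw [hp_cons]; exact wt_mul (wt_hh k) hl⟩

theorem wt_rep (k x : ℕ) :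
    Wt (fun r => if r ≤ k then (x : F) else 0) (hp F (Multiset.replicate x k)) := by
  induction x with
  | zero => simp only [Nat.cast_zero, ite_self]; exact wt_one
  | succ x ih =>
    rw [Multiset.replicate_succ, hp_cons]
    convert wt_mul (wt_hh k) ih using 2
    split_ifs
    · push_cast; ring
    · simp

def cols : ℕ → List (ℕ × ℕ) → Multiset ℕ
  | _, [] => 0
  | n, z :: w => Multiset.replicate z.1 (2 * n + 1) + Multiset.replicate z.2 (2 * n + 2)
      + cols (n + 1) w

theorem cols_ge : ∀ (w : List (ℕ × ℕ)) (n : ℕ), ∀ k ∈ cols n w, 2 * n + 1 ≤ k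
  | [], _ => by simp [cols]
  | z :: w, n => by
    intro k hk
    simp only [cols, Multiset.mem_add, Multiset.mem_replicate] at hk
    rcases hk with (h | h) | h
    · omega
    · omega
    · have := cols_ge w (n + 1) k h; omega

theorem cols_succ : ∀ (w : List (ℕ × ℕ)) (n : ℕ), cols (n + 1) w = (cols n w).map (· + 2)
  | [], _ => by simp [cols]
  | z :: w, n => by
    simp only [cols, Multiset.map_add, Multiset.map_replicate, ← cols_succ w (n + 1)]
    rfl

theorem exists_cols : ∀ (d n : ℕ) (m : ℕ → ℕ), (∀ r, 1 ≤ r → m (r + 1) ≤ m r) →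
    (∀ r, 1 ≤ r → r ≤ 2 * n + 1 → m r = m (2 * n + 1)) → (∀ r, 2 * (n + d) < r → m r = 0) →
    ∃ w, Wt (fun r => (m r : F)) (hp F (cols n w)) := by
  intro d
  induction d with
  | zero =>
    intro n m _ h2 h3
    refine ⟨[], fun k hk => ?_⟩
    have : m k = 0 := by
      by_cases e : k ≤ 2 * n + 1
      · rw [h2 k hk e, h3 _ (by omega)]
      · exact h3 k (by omega)
    dsimp only
    rw [this, Nat.cast_zero]; exact wt_one (F := F) k hk
  | succ d ih =>
    intro n m h1 h2 h3
    obtain ⟨w, hw⟩ := ih (n + 1) (fun r => if r ≤ 2 * n + 3 then m (2 * n + 3) else m r)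
      (fun r hr => by
        by_cases e : r + 1 ≤ 2 * n + 3
        · rw [if_pos e, if_pos (by omega)]
        · rw [if_neg e]
          split_ifs with e2
          · rw [show r = 2 * n + 3 by omega]; exact h1 _ (by omega)
          · exact h1 r hr)
      (fun r _ hr => by rw [if_pos (by omega), if_pos (by omega)])
      (fun r hr => by
        split_ifs with e
        · exact h3 _ (by omega)
        · exact h3 _ (by omega))
    have e1 := h1 (2 * n + 1) (by omega)
    have e2 := h1 (2 * n + 2) (by omega)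
    refine ⟨(m (2 * n + 1) - m (2 * n + 2), m (2 * n + 2) - m (2 * n + 3)) :: w, fun k hk => ?_⟩
    rw [cols, hp_add, hp_add, wt_mul (wt_mul (wt_rep _ _) (wt_rep _ _)) hw k hk]
    congr 1
    dsimp only
    rw [Nat.cast_sub e1, Nat.cast_sub e2]
    by_cases c1 : k ≤ 2 * n + 1
    · rw [if_pos c1, if_pos (by omega), if_pos (by omega), h2 k hk c1]; ring
    · by_cases c2 : k = 2 * n + 2
      · rw [if_neg c1, if_pos (by omega), if_pos (by omega), c2]; ring
      · by_cases c3 : k = 2 * n + 3
        · rw [if_neg c1, if_neg (by omega), if_pos (by omega), c3]; ring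
        · rw [if_neg c1, if_neg (by omega), if_neg (by omega)]; ring

def orth (I : Submodule F (MvPolynomial V F)) : Submodule F (MvPolynomial V F) where
  carrier := {g | ∀ f ∈ I, form F f g = 0}
  add_mem' := fun {x y} hx hy f hf => by rw [map_add, hx f hf, hy f hf, add_zero]
  zero_mem' := fun f _ => map_zero _
  smul_mem' := fun c x hx f hf => by rw [map_smul, hx f hf, smul_zero]

theorem stable_orth {I : Submodule F (MvPolynomial V F)} (h : Stable I) : Stable (orth I) :=
  fun r s hr hs g hg f hf => by rw [← form_D]; exact hg _ (h s r hs hr f hf)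

theorem stable_inf {I J : Submodule F (MvPolynomial V F)} (h : Stable I) (h' : Stable J) :
    Stable (I ⊓ J) := fun r s hr hs g hg => ⟨h r s hr hs g hg.1, h' r s hr hs g hg.2⟩

theorem fin_pot (n : ℕ) : {u : V →₀ ℕ | pot u = n}.Finite := by
  classical
  have hT : {x : V | x.1.2 ≤ n}.Finite := by
    refine Set.Finite.of_finite_image (f := Subtype.val) ?_ Subtype.val_injective.injOn
    refine ((Set.finite_Iic n).prod (Set.finite_Iic n)).subset ?_
    rintro _ ⟨x, hx, rfl⟩
    exact ⟨le_trans x.2.le hx, hx⟩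
  refine (Set.finite_Icc (0 : V →₀ ℕ) (Finsupp.indicator hT.toFinset fun _ _ => n)).subset ?_
  intro u hu
  refine ⟨bot_le, fun x => ?_⟩
  by_cases e : u x = 0
  · rw [e]; exact Nat.zero_le _
  · have h1 : u x * (x.1.1 + x.1.2) ≤ n := by
      rw [← show pot u = n from hu, pot, Finsupp.weight_apply, Finsupp.sum]
      exact Finset.single_le_sum (f := fun y : V => u y • (y.1.1 + y.1.2))
        (fun _ _ => Nat.zero_le _) (Finsupp.mem_support_iff.2 e)
    have h2 := x.2
    have h3 : x.1.2 ≤ n := by nlinarith [Nat.pos_of_ne_zero e]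
    rw [Finsupp.indicator_of_mem (by simpa using h3)]
    nlinarith

variable [CharZero F]

theorem classify {h : MvPolynomial V F} {l : ℕ → F} (h1 : Hw h) (h2 : Wt l h) (h0 : h ≠ 0) :
    ∃ w, ∃ c : F, c ≠ 0 ∧ h = c • hp F (cols 0 w) := by
  obtain ⟨u, hu⟩ := support_nonempty.2 h0
  obtain ⟨K, hK⟩ := exists_bd u
  obtain ⟨w, hw⟩ := exists_cols (F := F) K 0 (deg u) (fun r hr => by
    obtain ⟨n, hn⟩ := dominant h2 h1 h0 r hr
    rw [← wt_supp h2 hu r hr, ← wt_supp h2 hu (r + 1) (by omega)] at hn
    have : deg u r = deg u (r + 1) + n := by exact_mod_cast hn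
    omega) (fun r _ _ => by rw [show r = 2 * 0 + 1 by omega])
    (fun r hr => deg_zero u K hK r (by omega))
  obtain ⟨c, hc⟩ := hw_uniq (hw_hp _) h1 hw (fun k hk => by
    rw [h2 k hk, wt_supp h2 hu k hk]) (hp_ne _)
  exact ⟨w, c, by rintro rfl; exact h0 (by rw [hc, zero_smul]), hc⟩

theorem form_hp (C : Multiset ℕ) : form F (hp F C) (hp F C) ≠ 0 := by
  have hm : hp F C ∈ (map (σ := V) (algebraMap ℚ F)).range := by
    refine Subring.multiset_prod_mem _ _ fun x hx => ?_
    obtain ⟨k, _, rfl⟩ := Multiset.mem_map.1 hx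
    refine P_mem _ (fun _ => True) (fun i j _ _ => ?_) _ (fun _ _ => trivial)
    refine RingHom.mem_range.2 ⟨a ℚ i j, ?_⟩
    unfold a; split_ifs <;> simp
  obtain ⟨g, hg⟩ := hm
  have h0 := hp_ne (F := F) C
  rw [← hg] at h0 ⊢
  rw [form_eq]
  simp only [coeff_map]
  have : ∑ u ∈ (map (algebraMap ℚ F) g).support,
      algebraMap ℚ F (coeff u g) * ((fac u : F) * algebraMap ℚ F (coeff u g))
      = algebraMap ℚ F (∑ u ∈ (map (algebraMap ℚ F) g).support,
        coeff u g * ((fac u : ℚ) * coeff u g)) := by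
    simp only [map_sum, map_mul, map_natCast]
  rw [this, map_ne_zero_iff _ (algebraMap ℚ F).injective]
  apply ne_of_gt
  refine Finset.sum_pos (fun u hu => ?_) (support_nonempty.2 h0)
  rw [mem_support_iff, coeff_map, map_ne_zero_iff _ (algebraMap ℚ F).injective] at hu
  have h1 : (0 : ℚ) < fac u := by exact_mod_cast fac_pos u
  have h2 := mul_self_pos.2 hu
  nlinarith

theorem inter_zero {I : Submodule F (MvPolynomial V F)} (h : Stable I) {f : MvPolynomial V F}
    (h1 : f ∈ I) (h2 : f ∈ orth I) : f = 0 := by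
  by_contra h0
  obtain ⟨g, hg, g0, ⟨l, hl⟩, hw⟩ := exists_hw (stable_inf h (stable_orth h)) ⟨h1, h2⟩ h0
  obtain ⟨w, c, hc, rfl⟩ := classify hw hl g0
  have := hg.2 _ hg.1
  simp only [map_smul, LinearMap.smul_apply, smul_eq_mul, mul_eq_zero, hc, false_or] at this
  exact form_hp _ this

theorem decomp {I : Submodule F (MvPolynomial V F)} (h : Stable I) {f : MvPolynomial V F}
    {l : ℕ → F} (hf : Wt l f) : ∃ g ∈ I, Wt l g ∧ f - g ∈ orth I := by
  by_cases h0 : f = 0
  · exact ⟨0, I.zero_mem, h0 ▸ hf, by rw [h0, sub_zero]; exact Submodule.zero_mem _⟩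
  obtain ⟨u, hu⟩ := support_nonempty.2 h0
  let W : Submodule F (MvPolynomial V F) :=
    { carrier := {g | g ∈ I ∧ Wt l g}
      add_mem' := fun {x y} hx hy => ⟨I.add_mem hx.1 hy.1, fun k hk => by
        rw [map_add, hx.2 k hk, hy.2 k hk, smul_add]⟩
      zero_mem' := ⟨I.zero_mem, fun k _ => by simp⟩
      smul_mem' := fun c x hx => ⟨I.smul_mem c hx.1, fun k hk => by
        rw [Derivation.map_smul, hx.2 k hk, smul_comm]⟩ }
  have hle : W ≤ restrictSupport F {v | pot v = pot u} := fun g hg => by
    rw [mem_restrictSupport_iff]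
    exact fun v hv => pot_wt hf hg.2 hu hv
  have : Finite {v : V →₀ ℕ | pot v = pot u} := fin_pot _
  have : Module.Finite F (restrictSupport F {v : V →₀ ℕ | pot v = pot u}) :=
    Module.Finite.of_basis (basisRestrictSupport F _)
  have : FiniteDimensional F W := Submodule.finiteDimensional_of_le hle
  have key : ∀ g, Wt l g → (∀ y : W, form F g y = 0) → g ∈ orth I := by
    intro g hg hy y hyI
    rw [form_symm, ← form_proj hg]
    exact hy ⟨_, proj_mem h l y hyI, wt_proj l y⟩
  let φ : W →ₗ[F] Module.Dual F W := (form F).compl₁₂ W.subtype W.subtype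
  have hinj : Function.Injective φ := by
    rw [injective_iff_map_eq_zero]
    intro g hg
    exact Subtype.ext (inter_zero h g.2.1 (key _ g.2.2 fun y => DFunLike.congr_fun hg y))
  have hsurj : Function.Surjective φ :=
    (LinearMap.injective_iff_surjective_of_finrank_eq_finrank
      (Subspace.dual_finrank_eq).symm).1 hinj
  obtain ⟨g, hg⟩ := hsurj ((form F f).comp W.subtype)
  refine ⟨g, g.2.1, g.2.2, key _ (fun k hk => by
    rw [map_sub, hf k hk, g.2.2 k hk, smul_sub]) fun y => ?_⟩
  rw [map_sub, LinearMap.sub_apply, sub_eq_zero]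
  exact (DFunLike.congr_fun hg y).symm

theorem dichotomy {I : Submodule F (MvPolynomial V F)} (h : Stable I) (C : Multiset ℕ) :
    hp F C ∈ I ∨ hp F C ∈ orth I := by
  obtain ⟨l, hl⟩ := wt_hp (F := F) C
  obtain ⟨g, hg, hw, ho⟩ := decomp h hl
  by_cases h0 : g = 0
  · right; simpa [h0] using ho
  · left
    have : Hw g := fun r s hr hs => by
      refine inter_zero h (h r s hr (by omega) g hg) ?_
      have := stable_orth h r s hr (by omega) _ ho
      rw [map_sub, hw_hp C r s hr hs, zero_sub] at this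
      simpa using this
    obtain ⟨c, hc⟩ := hw_uniq this (hw_hp C) hw hl h0
    rw [hc]; exact I.smul_mem c hg

theorem new_hw {I I' : Submodule F (MvPolynomial V F)} (h : Stable I) (h' : Stable I')
    (hle : I ≤ I') (hn : ¬ I' ≤ I) : ∃ w, hp F (cols 0 w) ∈ I' ∧ hp F (cols 0 w) ∈ orth I := by
  classical
  have : ∃ f ∈ I', f ∉ I ∧ ∃ l, Wt l f := by
    by_contra e
    push Not at e
    apply hn
    have key : ∀ n, ∀ f ∈ I', f.support.card = n → f ∈ I := by
      intro n
      induction n using Nat.strong_induction_on with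
      | _ n ih =>
        intro f hf hc
        by_cases h0 : f = 0
        · rw [h0]; exact I.zero_mem
        obtain ⟨u, hu⟩ := support_nonempty.2 h0
        have h1 := proj_mem h' (fun k => deg u k) f hf
        have h2 : proj (fun k => (deg u k : F)) f ∈ I := by
          by_contra e2; exact e _ h1 e2 _ (wt_proj _ f)
        have h3 := ih _ (by
          rw [← hc]
          apply Finset.card_lt_card
          refine ⟨fun v hv => ?_, fun hs => ?_⟩
          · rw [mem_support_iff] at hv ⊢
            intro e0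
            apply hv
            rw [coeff_sub, coeff_proj, e0]; simp
          · have := hs hu
            rw [mem_support_iff, coeff_sub, coeff_proj, if_pos (fun _ _ => rfl), sub_self] at this
            exact this rfl) _ (I'.sub_mem hf h1) rfl
        simpa using I.add_mem h3 h2
    exact fun f hf => key _ f hf rfl
  obtain ⟨f, hf, hfI, l, hl⟩ := this
  obtain ⟨g, hg, _, ho⟩ := decomp h hl
  obtain ⟨k, hk, k0, ⟨m, hm⟩, hw⟩ := exists_hw (stable_inf h' (stable_orth h))
    (f := f - g) ⟨I'.sub_mem hf (hle hg), ho⟩ (fun e => hfI (sub_eq_zero.1 e ▸ hg))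
  obtain ⟨w, c, hc, rfl⟩ := classify hw hm k0
  exact ⟨w, (Submodule.smul_mem_iff _ hc).1 hk⟩

structure Good (I : Submodule F (MvPolynomial V F)) : Prop where
  st : Stable I
  mul : ∀ f g, g ∈ I → f * g ∈ I
  rho : ∀ t, 1 ≤ t → ∀ f ∈ I, rho F t f ∈ I

omit [CharZero F] in
theorem iter_leib (Δ : Der F) (u g : MvPolynomial V F) (hu : Δ (Δ u) = 0) (n : ℕ) :
    Δ^[n + 1] (u * g) = u * Δ^[n + 1] g + ((n : F) + 1) • (Δ u * Δ^[n] g) := by
  induction n with
  | zero => simp [Derivation.leibniz]; ring
  | succ n ih =>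
    rw [Function.iterate_succ_apply', ih, map_add, Derivation.map_smul, Derivation.leibniz,
      Derivation.leibniz, hu, ← Function.iterate_succ_apply' Δ (n + 1),
      ← Function.iterate_succ_apply' Δ n]
    simp only [smul_eq_mul, mul_zero, add_zero, mul_comm (Δ^[n + 1] g), Nat.succ_eq_add_one]
    push_cast; module

theorem iter_pd (t : ℕ) (ht : 1 ≤ t) (C1 C2 : Multiset ℕ) (h1 : ∀ k ∈ C1, k < t)
    (h2 : ∀ k ∈ C2, t ≤ k) :
    ∃ c : F, c ≠ 0 ∧ (pd F t (t + 1))^[C2.card] (hp F (C1 + C2.map (· + 2)))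
      = c • rho F t (hp F (C1 + C2)) := by
  induction C2 using Multiset.induction_on with
  | empty =>
    refine ⟨1, one_ne_zero, ?_⟩
    simp only [Multiset.card_zero, Function.iterate_zero_apply, Multiset.map_zero, add_zero,
      one_smul, hp, map_multiset_prod, Multiset.map_map]
    congr 1
    exact Multiset.map_congr rfl fun k hk => (rho_hh t k (h1 k hk)).symm
  | cons k C ih =>
    obtain ⟨c, hc, H⟩ := ih fun j hj => h2 j (Multiset.mem_cons_of_mem hj)
    obtain ⟨e, he, He⟩ := pd_hh (R := F) t k ht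
      (by have := h2 k (Multiset.mem_cons_self _ _); omega)
    have h3 : pd F t (t + 1) (rho F t (hp F (C1 + C))) = 0 := by
      rw [hp, map_multiset_prod]
      refine (kerS (pd F t (t + 1))).multiset_prod_mem _ fun x hx => ?_
      simp only [Multiset.mem_map] at hx
      obtain ⟨_, ⟨j, _, rfl⟩, rfl⟩ := hx
      exact pd_rho_hh t j
    refine ⟨(C.card + 1) * e * c, mul_ne_zero (mul_ne_zero (Nat.cast_add_one_ne_zero _) ?_) hc, ?_⟩
    · rintro e0
      rw [Int.cast_eq_zero] at e0
      rw [e0] at he; simp at he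
    · rw [Multiset.map_cons, Multiset.add_cons, Multiset.add_cons, hp_cons, hp_cons,
        Multiset.card_cons, iter_leib _ _ _ (by rw [He, map_zsmul, pd_rho_hh, smul_zero]),
        Function.iterate_succ_apply', H, Derivation.map_smul, h3, He, map_mul,
        ← Int.cast_smul_eq_zsmul F]
      simp only [smul_zero, mul_zero, zero_add, smul_mul_assoc, mul_smul_comm]
      module

theorem moveB {I : Submodule F (MvPolynomial V F)} (h : Good I) (t : ℕ) (ht : 1 ≤ t)
    (C1 C2 : Multiset ℕ) (h1 : ∀ k ∈ C1, k < t) (h2 : ∀ k ∈ C2, t ≤ k)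
    (hI : hp F (C1 + C2) ∈ I) : hp F (C1 + C2.map (· + 2)) ∈ I := by
  refine (dichotomy h.st _).resolve_right fun ho => ?_
  have key : ∀ n, (pd F t (t + 1))^[n] (hp F (C1 + C2.map (· + 2))) ∈ orth I := by
    intro n
    induction n with
    | zero => exact ho
    | succ n ih =>
      rw [Function.iterate_succ_apply']
      intro f hf
      rw [← form_a]; exact ih _ (h.mul _ _ hf)
  obtain ⟨c, hc, H⟩ := iter_pd (F := F) t ht C1 C2 h1 h2
  have := key C2.card
  rw [H, Submodule.smul_mem_iff _ hc] at this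
  exact hp_ne _ (rho_inj t ((inter_zero h.st (h.rho t ht _ hI) this).trans (map_zero _).symm))

theorem upward {I : Submodule F (MvPolynomial V F)} (h : Good I) {w w' : List (ℕ × ℕ)}
    (hw : List.SublistForall₂ (· ≤ ·) w w') : ∀ (n : ℕ) (C : Multiset ℕ), (∀ k ∈ C, k ≤ 2 * n) →
      hp F (C + cols n w) ∈ I → hp F (C + cols n w') ∈ I := by
  induction hw with
  | nil =>
    intro n C _ hI
    rw [cols, add_zero] at hI
    rw [hp_add, mul_comm]; exact h.mul _ _ hI
  | @cons x y l l' hxy _ ih =>
    intro n C hC hI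
    rw [cols, ← add_assoc]
    refine ih (n + 1) _ (fun k hk => ?_) ?_
    · simp only [Multiset.mem_add, Multiset.mem_replicate] at hk
      rcases hk with e | e | e
      · have := hC k e; omega
      · omega
      · omega
    · obtain ⟨d1, e1⟩ := Nat.exists_eq_add_of_le hxy.1
      obtain ⟨d2, e2⟩ := Nat.exists_eq_add_of_le hxy.2
      have := h.mul (hp F (Multiset.replicate d1 (2 * n + 1) + Multiset.replicate d2 (2 * n + 2)))
        _ hI
      rw [← hp_add, cols] at this
      convert this using 2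
      rw [e1, e2, Multiset.replicate_add, Multiset.replicate_add]; abel
  | @cons_right y l l' _ ih =>
    intro n C hC hI
    have h1 := moveB h (2 * n + 1) (by omega) C _ (fun k hk => by have := hC k hk; omega)
      (cols_ge l' n) (ih n C hC hI)
    have := h.mul (hp F (Multiset.replicate y.1 (2 * n + 1) + Multiset.replicate y.2 (2 * n + 2)))
      _ h1
    rw [← hp_add, ← cols_succ] at this
    convert this using 2
    rw [cols]; abel

theorem acc (J : ℕ → Submodule F (MvPolynomial V F)) (hG : ∀ n, Good (J n)) (hm : Monotone J) :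
    ∃ n, J (n + 1) ≤ J n := by
  by_contra e
  push Not at e
  choose w h1 h2 using fun n => new_hw (hG n).st (hG (n + 1)).st (hm (Nat.le_succ n)) (e n)
  have hq : (Set.univ : Set (ℕ × ℕ)).PartiallyWellOrderedOn (· ≤ ·) := Set.isPWO_of_wellQuasiOrderedLE _
  obtain ⟨i, j, hij, H⟩ := Set.partiallyWellOrderedOn_iff_exists_lt.1
    (hq.partiallyWellOrderedOn_sublistForall₂ (· ≤ ·)) w (fun _ _ _ => trivial)
  have := upward (hG j) H 0 0 (by simp) (by rw [zero_add]; exact hm hij (h1 i))
  rw [zero_add] at this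
  exact hp_ne _ (inter_zero (hG j).st this (h2 j))

end Pool.Agent.H.MP_1670b2_al
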