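import Pool.Agent.H.MP_1670b2_al.G

namespace Pool.Agent.H.MP_1670b2_al

open MvPolynomial

abbrev Fr (F : Type) [Field F] := FreeNonUnitalNonAssocAlgebra F ℕ

variable {F : Type} [Field F]

theorem poly_zero [Infinite F] {S U : Type} [CommRing S] [CommRing U] [Algebra F U] (φ : S →+* U)
    (Q : Polynomial S) (h : ∀ t : F, Q.eval₂ φ (algebraMap F U t) = 0) (n : ℕ) :
    φ (Q.coeff n) = 0 := by
  rw [← Module.forall_dual_apply_eq_zero_iff F]
  intro l
  have : (∑ i ∈ Q.support, Polynomial.monomial i (l (φ (Q.coeff i)))) = 0 := by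
    apply Polynomial.funext
    intro t
    have := congrArg l (h t)
    rw [Polynomial.eval₂_eq_sum, Polynomial.sum, map_sum, map_zero] at this
    rw [Polynomial.eval_finsetSum, Polynomial.eval_zero, ← this]
    refine Finset.sum_congr rfl fun i _ => ?_
    rw [Polynomial.eval_monomial, ← map_pow, mul_comm (φ _), ← Algebra.smul_def, map_smul,
      smul_eq_mul, mul_comm]
  have h2 := congrArg (Polynomial.coeff · n) this
  simp only [Polynomial.finsetSum_coeff, Polynomial.coeff_monomial, Finset.sum_ite_eq',
    Polynomial.coeff_zero, Polynomial.mem_support_iff] at h2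
  by_cases e : Q.coeff n = 0
  · simp [e]
  · simpa [e] using h2

structure InW (C : Type) [NonUnitalNonAssocRing C] : Prop where
  as : ∀ x y z : C, (x * y + y * x) * z + z * (x * y + y * x)
    = x * (y * z + z * y) + (y * z + z * y) * x
  ce : ∀ x y z : C, x * y * z = z * (x * y)

variable {C : Type} [NonUnitalNonAssocRing C] [Module F C] [IsScalarTower F C C]
  [SMulCommClass F C C]

def Plus (F : Type) [Field F] (_h : InW C) : Type := C

instance (h : InW C) : AddCommGroup (Plus F h) := inferInstanceAs (AddCommGroup C)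
instance (h : InW C) : Module F (Plus F h) := inferInstanceAs (Module F C)

def jp (F : Type) [Field F] [Module F C] (x y : C) : C := (2⁻¹ : F) • (x * y + y * x)

instance (h : InW C) : NonUnitalCommRing (Plus F h) :=
  { (inferInstance : AddCommGroup (Plus F h)) with
    mul := fun x y => jp (C := C) F x y
    left_distrib := fun (x y z : C) => by
      change jp F x (y + z) = jp F x y + jp F x z
      simp only [jp, mul_add, add_mul]; module
    right_distrib := fun (x y z : C) => by
      change jp F (x + y) z = jp F x z + jp F y z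
      simp only [jp, mul_add, add_mul]; module
    zero_mul := fun (x : C) => by change jp F 0 x = 0; simp [jp]
    mul_zero := fun (x : C) => by change jp F x 0 = 0; simp [jp]
    mul_assoc := fun (x y z : C) => by
      change jp F (jp F x y) z = jp F x (jp F y z)
      simp only [jp, smul_mul_assoc, mul_smul_comm, ← smul_add, h.as]
    mul_comm := fun (x y : C) => by
      change jp F x y = jp F y x
      rw [jp, jp, add_comm] }

instance (h : InW C) : IsScalarTower F (Plus F h) (Plus F h) :=
  ⟨fun c (x y : C) => by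
    change jp F (c • x) y = c • jp F x y
    simp only [jp, smul_mul_assoc, mul_smul_comm]; module⟩
instance (h : InW C) : SMulCommClass F (Plus F h) (Plus F h) :=
  ⟨fun c (x y : C) => by
    change c • jp F x y = jp F x (c • y)
    simp only [jp, smul_mul_assoc, mul_smul_comm]; module⟩

def inj (h : InW C) : C →ₗ[F] Unitization F (Plus F h) := Unitization.inrHom F F (Plus F h)

theorem inj_inj (h : InW C) : Function.Injective (inj (F := F) h) := Unitization.inr_injective

theorem inj_mul (h : InW C) (x y : C) : inj (F := F) h x * inj h y = inj h (jp F x y) :=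
  (Unitization.inr_mul F (A := Plus F h) x y).symm

def be (x y : F × C) : C := x.1 • y.2 - y.1 • x.2 + (2⁻¹ : F) • (x.2 * y.2 - y.2 * x.2)

noncomputable def evl (h : InW C) (g : ℕ → F × C) :
    MvPolynomial V F →ₐ[F] Unitization F (Plus F h) :=
  aeval fun v => inj h (be (g v.1.1) (g v.1.2))

theorem evl_a (h : InW C) (g : ℕ → F × C) (i j : ℕ) :
    evl h g (a F i j) = inj h (be (g i) (g j)) :=
  skew_ext (evl h g).toLinearMap.toAddMonoidHom (fun i j => inj h (be (g i) (g j)))
    (fun i => by simp [be]) (fun i j => by rw [← map_neg]; congr 1; simp only [be]; module)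
    (fun v => aeval_X _ v) i j

theorem evl_Sg (h : InW C) (g : ℕ → F × C) (r s : ℕ) (t : F) (p : MvPolynomial V F) :
    (Sg F r s p).eval₂ (evl h g).toRingHom (algebraMap F _ t)
      = evl h (fun i => g i + (dl F i s * t) • g r) p := by
  induction p using MvPolynomial.induction_on with
  | C c =>
    rw [Sg, aeval_C, Polynomial.algebraMap_apply, Polynomial.eval₂_C]
    exact ((evl h g).commutes c).trans ((evl h _).commutes c).symm
  | add p q hp hq => rw [map_add, map_add, Polynomial.eval₂_add, hp, hq]
  | mul_X p x hp =>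
    rw [map_mul, map_mul, Polynomial.eval₂_mul, hp, X_eq, Sg_a, evl_a, Polynomial.eval₂_add,
      Polynomial.eval₂_mul, Polynomial.eval₂_C, Polynomial.eval₂_C, Polynomial.eval₂_X,
      ← Algebra.smul_def]
    congr 1
    change evl h g _ + t • evl h g _ = _
    simp only [dA, map_add, map_smul, evl_a]
    simp only [← map_smul, ← map_add]
    congr 1
    simp only [be, Prod.fst_add, Prod.snd_add, Prod.smul_fst, Prod.smul_snd, smul_eq_mul, mul_add,
      add_mul, smul_mul_assoc, mul_smul_comm]
    module

theorem evl_rho (h : InW C) (g : ℕ → F × C) (t : ℕ) (p : MvPolynomial V F) :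
    evl h g (rho F t p) = evl h (fun i => g (sk t i)) p := by
  have : (evl h g).comp (rho F t) = evl h (fun i => g (sk t i)) := by
    ext1 v
    rw [AlgHom.comp_apply, X_eq, rho_a, evl_a, evl_a]
  exact DFunLike.congr_fun this p

def Adm (g : ℕ → F × C) : Prop := g 0 = (1, 0) ∧ ∀ i, 1 ≤ i → (g i).1 = 0

def IsId (F : Type) [Field F] (A : Type) [NonUnitalNonAssocRing A] [Module F A]
    [IsScalarTower F A A] [SMulCommClass F A A] (f : Fr F) : Prop :=
  ∀ ρ : ℕ → A, FreeNonUnitalNonAssocAlgebra.lift F ρ f = 0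

def JJ (T : Finset (Fr F)) : Submodule F (MvPolynomial V F) where
  carrier := {p | ∀ (C : Type) [NonUnitalNonAssocRing C] [Module F C] [IsScalarTower F C C]
    [SMulCommClass F C C] (h : InW C), (∀ f ∈ T, IsId F C f) → ∀ g, Adm g → evl h g p = 0}
  add_mem' := fun {x y} hx hy C _ _ _ _ h hT g hg => by
    rw [map_add, hx C h hT g hg, hy C h hT g hg, add_zero]
  zero_mem' := fun C _ _ _ _ h _ g _ => map_zero _
  smul_mem' := fun c x hx C _ _ _ _ h hT g hg => by rw [map_smul, hx C h hT g hg, smul_zero]

theorem good_JJ [CharZero F] (T : Finset (Fr F)) : Good (JJ T) where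
  st := fun r s hr hs p hp C _ _ _ _ h hT g hg => by
    have : Infinite F := Infinite.of_injective (Nat.cast : ℕ → F) Nat.cast_injective
    rw [← (Sg_coeff r s p).2]
    refine poly_zero (F := F) (evl h g).toRingHom _ (fun t => ?_) 1
    rw [evl_Sg]
    refine hp C h hT _ ⟨?_, fun i hi => ?_⟩
    · simp [dl_ne (show 0 ≠ s by omega), hg.1]
    · simp [hg.2 i hi, hg.2 r hr]
  mul := fun f p hp C _ _ _ _ h hT g hg => by rw [map_mul, hp C h hT g hg, mul_zero]
  rho := fun t ht p hp C _ _ _ _ h hT g hg => by
    rw [evl_rho]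
    refine hp C h hT _ ⟨?_, fun i hi => hg.2 _ ?_⟩
    · simp only [sk]; rw [if_pos (by omega), hg.1]
    · unfold sk; split_ifs <;> omega

theorem lift_single_mul (ρ : ℕ → C) (u v : FreeMagma ℕ) :
    FreeNonUnitalNonAssocAlgebra.lift F ρ (MonoidAlgebra.single (u * v) 1 : Fr F)
      = FreeNonUnitalNonAssocAlgebra.lift F ρ (MonoidAlgebra.single u 1 : Fr F)
        * FreeNonUnitalNonAssocAlgebra.lift F ρ (MonoidAlgebra.single v 1 : Fr F) := by
  rw [← map_mul]
  congr 1
  exact ((MonoidAlgebra.single_mul_single u v (1 : F) 1).trans (by rw [mul_one])).symm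

theorem lift_single_of (ρ : ℕ → C) (i : ℕ) :
    FreeNonUnitalNonAssocAlgebra.lift F ρ (MonoidAlgebra.single (FreeMagma.of i) 1 : Fr F)
      = ρ i := FreeNonUnitalNonAssocAlgebra.lift_of_apply F ρ i

def Rep (f : Fr F) (p : MvPolynomial V F) : Prop :=
  ∀ (C : Type) [NonUnitalNonAssocRing C] [Module F C] [IsScalarTower F C C]
    [SMulCommClass F C C] (h : InW C) (g : ℕ → F × C), Adm g →
      evl h g p = inj h (FreeNonUnitalNonAssocAlgebra.lift F (fun i => (g (i + 1)).2) f)

theorem exists_rep [CharZero F] (f : Fr F) : ∃ p, Rep f p := by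
  have h2 : ∀ (C : Type) [AddCommGroup C] [Module F C] (x : C), (2⁻¹ : F) • (x + x) = x := by
    intro C _ _ x
    rw [← two_smul F, smul_smul, inv_mul_cancel₀ two_ne_zero, one_smul]
  induction f using MonoidAlgebra.induction_linear with
  | zero => exact ⟨0, fun C _ _ _ _ h g _ => by simp⟩
  | add x y hx hy =>
    obtain ⟨p, hp⟩ := hx
    obtain ⟨q, hq⟩ := hy
    exact ⟨p + q, fun C _ _ _ _ h g hg => by
      rw [map_add, hp C h g hg, hq C h g hg, ← map_add]
      congr 1
      exact (map_add _ x y).symm⟩
  | single w c =>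
    have key : ∃ p, Rep (MonoidAlgebra.single w 1 : Fr F) p := by
      induction w with
      | ih1 i =>
        refine ⟨a F 0 (i + 1), fun C _ _ _ _ h g hg => ?_⟩
        rw [evl_a, hg.1]
        erw [lift_single_of]
        simp [be, hg.2 (i + 1) (by omega)]
      | ih2 u v hu hv =>
        obtain ⟨p, hp⟩ := hu
        obtain ⟨q, hq⟩ := hv
        cases u with
        | of i =>
          cases v with
          | of j =>
            refine ⟨p * q + a F (i + 1) (j + 1), fun C _ _ _ _ h g hg => ?_⟩
            rw [map_add, map_mul, hp C h g hg, hq C h g hg, inj_mul, evl_a, ← map_add,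
              lift_single_mul, lift_single_of, lift_single_of]
            congr 1
            simp only [be, jp, hg.2 (i + 1) (by omega), hg.2 (j + 1) (by omega), zero_smul,
              sub_zero, zero_add, ← smul_add]
            rw [add_add_sub_cancel, h2]
          | mul v1 v2 =>
            refine ⟨p * q, fun C _ _ _ _ h g hg => ?_⟩
            rw [map_mul, hp C h g hg, hq C h g hg, inj_mul, lift_single_mul]
            erw [lift_single_mul _ v1 v2]
            rw [jp, h.ce, h2]
        | mul u1 u2 =>
          refine ⟨p * q, fun C _ _ _ _ h g hg => ?_⟩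
          rw [map_mul, hp C h g hg, hq C h g hg, inj_mul, lift_single_mul]
          erw [lift_single_mul _ u1 u2]
          rw [jp, ← h.ce, h2]
    obtain ⟨p, hp⟩ := key
    refine ⟨c • p, fun C _ _ _ _ h g hg => ?_⟩
    rw [map_smul, hp C h g hg, ← map_smul, ← map_smul]
    congr 2
    simp

noncomputable def xx (F : Type) [Field F] (i : ℕ) : Fr F := FreeNonUnitalNonAssocAlgebra.of F i

noncomputable def w1 (F : Type) [Field F] : Fr F :=
  ((xx F 0 * xx F 1 + xx F 1 * xx F 0) * xx F 2 + xx F 2 * (xx F 0 * xx F 1 + xx F 1 * xx F 0))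
    - (xx F 0 * (xx F 1 * xx F 2 + xx F 2 * xx F 1) + (xx F 1 * xx F 2 + xx F 2 * xx F 1) * xx F 0)

noncomputable def w2 (F : Type) [Field F] : Fr F :=
  xx F 0 * xx F 1 * xx F 2 - xx F 2 * (xx F 0 * xx F 1)

theorem lift_xx (ρ : ℕ → C) (i : ℕ) : FreeNonUnitalNonAssocAlgebra.lift F ρ (xx F i) = ρ i :=
  FreeNonUnitalNonAssocAlgebra.lift_of_apply F ρ i

theorem inW_iff : InW C ↔ IsId F C (w1 F) ∧ IsId F C (w2 F) := by
  constructor
  · intro h
    exact ⟨fun ρ => by simp only [w1, map_sub, map_add, map_mul, lift_xx, h.as, sub_self],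
      fun ρ => by simp only [w2, map_sub, map_mul, lift_xx, h.ce, sub_self]⟩
  · rintro ⟨h1, h2⟩
    refine ⟨fun x y z => ?_, fun x y z => ?_⟩
    · have := h1 (fun i => if i = 0 then x else if i = 1 then y else z)
      simp only [w1, map_sub, map_add, map_mul, lift_xx] at this
      simpa [sub_eq_zero] using this
    · have := h2 (fun i => if i = 0 then x else if i = 1 then y else z)
      simp only [w2, map_sub, map_mul, lift_xx] at this
      simpa [sub_eq_zero] using this

theorem specht [CharZero F] (I : Set (Fr F)) (h1 : w1 F ∈ I) (h2 : w2 F ∈ I) :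
    ∃ T : Finset (Fr F), (∀ f ∈ T, f ∈ I) ∧ ∀ f ∈ I,
      ∀ (C : Type) [NonUnitalNonAssocRing C] [Module F C] [IsScalarTower F C C]
        [SMulCommClass F C C], (∀ g ∈ T, IsId F C g) → IsId F C f := by
  classical
  by_contra e
  have e' : ∀ T : {T : Finset (Fr F) // ∀ f ∈ T, f ∈ I}, ∃ f ∈ I,
      ¬ ∀ (C : Type) [NonUnitalNonAssocRing C] [Module F C] [IsScalarTower F C C]
        [SMulCommClass F C C], (∀ g ∈ T.1, IsId F C g) → IsId F C f := by
    intro T
    by_contra e2
    exact e ⟨T.1, T.2, fun f hf => by_contra fun e3 => e2 ⟨f, hf, e3⟩⟩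
  choose nx hI hn using e'
  let T : ℕ → {T : Finset (Fr F) // ∀ f ∈ T, f ∈ I} := fun n =>
    Nat.rec ⟨{w1 F, w2 F}, by simp [h1, h2]⟩
      (fun _ S => ⟨insert (nx S) S.1, by
        intro f hf
        rcases Finset.mem_insert.1 hf with rfl | hf
        · exact hI S
        · exact S.2 f hf⟩) n
  have hT : ∀ n, (T (n + 1)).1 = insert (nx (T n)) (T n).1 := fun _ => rfl
  have hm : Monotone fun n => (T n).1 :=
    monotone_nat_of_le_succ fun n => by rw [hT]; exact Finset.subset_insert _ _
  obtain ⟨n, hn'⟩ := acc (fun n => JJ (T n).1) (fun n => good_JJ _)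
    (fun i j hij p hp C _ _ _ _ h hC g hg => hp C h (fun f hf => hC f (hm hij hf)) g hg)
  obtain ⟨p, hp⟩ := exists_rep (nx (T n))
  have : p ∈ JJ (T n).1 := hn' fun C _ _ _ _ h hC g hg => by
    rw [hp C h g hg, hC _ (by rw [hT]; exact Finset.mem_insert_self _ _), map_zero]
  apply hn (T n)
  intro C _ _ _ _ hC ρ
  have h0 := hm (Nat.zero_le n)
  have h : InW C := (inW_iff (F := F)).2 ⟨hC _ (h0 (Finset.mem_insert_self _ _)),
    hC _ (h0 (Finset.mem_insert_of_mem (Finset.mem_singleton_self _)))⟩
  have hg : Adm (F := F) (fun i => Nat.casesOn i (1, 0) fun i => (0, ρ i)) :=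
    ⟨rfl, fun i hi => by cases i with
      | zero => omega
      | succ i => rfl⟩
  have h3 := this C h hC _ hg
  rw [hp C h _ hg] at h3
  exact inj_inj h (h3.trans (map_zero _).symm)

end Pool.Agent.H.MP_1670b2_al
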