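import Pool.Agent.H.MP_1670b2_al.K
import Pool.Agent.H.MP_c03fb1_al.A

namespace Pool.Agent.H.MP_1670b2_al

open TensorProduct

variable {F : Type} [Field F]

abbrev Gr (F : Type) [Field F] := ExteriorAlgebra F (ℕ →₀ F)

noncomputable def wd (F : Type) [Field F] (l : List ℕ) : Gr F :=
  (l.map fun k => ExteriorAlgebra.ι F (Finsupp.single k (1 : F))).prod

noncomputable def Gp (F : Type) [Field F] (i : ZMod 2) : Submodule F (Gr F) :=
  Submodule.span F {x | ∃ l : List ℕ, (l.length : ZMod 2) = i ∧ x = wd F l}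

theorem wd_eq (l : List ℕ) : wd F l = pr (l.map (ee F)) := by
  rw [wd, pr, List.map_map]; rfl

theorem wd_append (l l' : List ℕ) : wd F (l ++ l') = wd F l * wd F l' := by simp [wd]

theorem wd_mem (l : List ℕ) : wd F l ∈ Gp F l.length := Submodule.subset_span ⟨l, rfl, rfl⟩

theorem wd_ne (l : List ℕ) (h : l.Nodup) : wd F l ≠ 0 := by
  have key : ∀ (i : ℕ) (l : List ℕ), i ∉ l →
      CliffordAlgebra.contractLeft (Q := 0) (Finsupp.lapply i) (pr (l.map (ee F)) : Gr F) = 0 := by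
    intro i l
    induction l with
    | nil => exact fun _ => CliffordAlgebra.contractLeft_one (Q := 0) _
    | cons j l ih =>
      intro hi
      rw [List.mem_cons, not_or] at hi
      rw [List.map_cons, con_cons, ih hi.2]
      simp [ee, Finsupp.single_eq_of_ne hi.1]
  rw [wd_eq]
  induction l with
  | nil => exact one_ne_zero
  | cons i l ih =>
    intro e
    have := con_cons (R := F) (Finsupp.lapply i) (ee F i) (l.map (ee F))
    rw [← List.map_cons, e, map_zero, key i l (List.nodup_cons.1 h).1] at this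
    apply ih (List.nodup_cons.1 h).2
    simpa [ee] using this.symm

def sg (F : Type) [Field F] (i j : ZMod 2) : F := if i = 1 ∧ j = 1 then -1 else 1

theorem z2 (i : ZMod 2) : i = 0 ∨ i = 1 := by revert i; decide
theorem z11 : (1 + 1 : ZMod 2) = 0 := by decide

theorem sg_add (i j k : ZMod 2) : sg F i (j + k) = sg F i j * sg F i k := by
  rcases z2 i with rfl | rfl <;> rcases z2 j with rfl | rfl <;> rcases z2 k with rfl | rfl <;>
    simp [sg, z11]

theorem sg_add' (i j k : ZMod 2) : sg F (j + k) i = sg F j i * sg F k i := by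
  rcases z2 i with rfl | rfl <;> rcases z2 j with rfl | rfl <;> rcases z2 k with rfl | rfl <;>
    simp [sg, z11]

theorem wd_comm (l l' : List ℕ) :
    wd F l' * wd F l = sg F l.length l'.length • (wd F l * wd F l') := by
  have h1 : ∀ (x : ℕ) (l : List ℕ),
      wd F [x] * wd F l = sg F l.length 1 • (wd F l * wd F [x]) := by
    intro x l
    induction l with
    | nil => simp [wd, sg]
    | cons y l ih =>
      have : wd F [x] * wd F [y] = - (wd F [y] * wd F [x]) := by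
        simp only [wd, List.map_cons, List.map_nil, List.prod_cons, List.prod_nil, mul_one]
        exact eq_neg_of_add_eq_zero_left (ExteriorAlgebra.ι_add_mul_swap _ _)
      rw [← List.singleton_append (l := l), wd_append, ← mul_assoc, this, neg_mul, mul_assoc, ih,
        List.length_append, Nat.cast_add, sg_add', mul_smul_comm, mul_assoc]
      have : sg F (([y].length : ℕ) : ZMod 2) 1 = -1 := by simp [sg]
      rw [this]; module
  induction l' with
  | nil => simp [wd, sg]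
  | cons x l' ih =>
    rw [← List.singleton_append (l := l'), wd_append, mul_assoc, ih, mul_smul_comm, ← mul_assoc, h1,
      List.length_append, Nat.cast_add, sg_add, smul_mul_assoc, smul_smul, mul_assoc, mul_comm]
    simp

theorem Gp_comm {i j : ZMod 2} {g h : Gr F} (hg : g ∈ Gp F i) (hh : h ∈ Gp F j) :
    h * g = sg F i j • (g * h) := by
  induction hg using Submodule.span_induction with
  | mem x hx =>
    obtain ⟨l, rfl, rfl⟩ := hx
    induction hh using Submodule.span_induction with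
    | mem y hy => obtain ⟨l', rfl, rfl⟩ := hy; exact wd_comm l l'
    | zero => simp
    | add y z _ _ h1 h2 => rw [add_mul, mul_add, h1, h2, smul_add]
    | smul c y _ h1 => rw [smul_mul_assoc, mul_smul_comm, h1, smul_comm]
  | zero => simp
  | add y z _ _ h1 h2 => rw [add_mul, mul_add, h1, h2, smul_add]
  | smul c y _ h1 => rw [smul_mul_assoc, mul_smul_comm, h1, smul_comm]

theorem perm_sign {α : Type} (ε : α → ZMod 2) {l l' : List α} (hp : l.Perm l') :
    ∃ s : F, ∀ g : α → Gr F, (∀ i, g i ∈ Gp F (ε i)) → (l.map g).prod = s • (l'.map g).prod := by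
  induction hp with
  | nil => exact ⟨1, fun _ _ => by simp⟩
  | cons x _ ih =>
    obtain ⟨c, H⟩ := ih
    exact ⟨c, fun g hg => by
      rw [List.map_cons, List.map_cons, List.prod_cons, List.prod_cons, H g hg, mul_smul_comm]⟩
  | swap x y l =>
    refine ⟨sg F (ε x) (ε y), fun g hg => ?_⟩
    simp only [List.map_cons, List.prod_cons, ← mul_assoc]
    rw [Gp_comm (hg x) (hg y), smul_mul_assoc]
  | trans _ _ ih1 ih2 =>
    obtain ⟨c, H⟩ := ih1
    obtain ⟨d, H'⟩ := ih2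
    exact ⟨c * d, fun g hg => by rw [H g hg, H' g hg, mul_smul]⟩

theorem pair_sign {n : ℕ} (σ : Equiv.Perm (Fin n)) (ε ε' : Fin n → ZMod 2) :
    ∃ s : F, ∀ g g' : Fin n → Gr F, (∀ i, g i ∈ Gp F (ε i)) → (∀ i, g' i ∈ Gp F (ε' i)) →
      (List.ofFn fun i => g i * g' (σ i)).prod = s • ((List.ofFn g).prod * (List.ofFn g').prod) := by
  have h1 : ∀ l : List (Fin n), (l.flatMap fun i => [Sum.inl i, Sum.inr (σ i)]).Perm
      (l.map (Sum.inl : Fin n → Fin n ⊕ Fin n) ++ (l.map σ).map Sum.inr) := by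
    intro l
    induction l with
    | nil => simp
    | cons x l ih =>
      simp only [List.flatMap_cons, List.map_cons, List.cons_append, List.nil_append]
      exact ((ih.cons _).trans List.perm_middle.symm).cons _
  have h2 := (h1 (List.finRange n)).trans
    (((Equiv.Perm.map_finRange_perm σ).map Sum.inr).append_left _)
  obtain ⟨s, hs⟩ := perm_sign (F := F) (Sum.elim ε ε') h2
  refine ⟨s, fun g g' hg hg' => ?_⟩
  have := hs (Sum.elim g g') (by rintro (i | i); exacts [hg i, hg' i])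
  rw [List.map_append, List.prod_append, List.map_map, List.map_map] at this
  rw [List.ofFn_eq_map, List.ofFn_eq_map, List.ofFn_eq_map]
  refine Eq.trans ?_ this
  induction (List.finRange n) with
  | nil => rfl
  | cons x l ih => simp [ih, mul_assoc]

variable {A : Type} [NonUnitalNonAssocRing A] [Module F A] [IsScalarTower F A A]
  [SMulCommClass F A A]

noncomputable def env (𝒜 : ZMod 2 → Submodule F A) : Submodule F (Gr F ⊗[F] A) :=
  Submodule.span F {x | ∃ i, ∃ g ∈ Gp F i, ∃ a ∈ 𝒜 i, x = g ⊗ₜ[F] a}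

omit [IsScalarTower F A A] [SMulCommClass F A A] in
theorem tmul_mem {𝒜 : ZMod 2 → Submodule F A} {i : ZMod 2} {g : Gr F} {a : A} (hg : g ∈ Gp F i)
    (ha : a ∈ 𝒜 i) : g ⊗ₜ[F] a ∈ env 𝒜 := Submodule.subset_span ⟨i, g, hg, a, ha, rfl⟩

def Zc (𝒜 : ZMod 2 → Submodule F A) (i : ZMod 2) : Submodule F A where
  carrier := {z | z ∈ 𝒜 i ∧ ∀ j, ∀ c ∈ 𝒜 j, z * c = sg F i j • (c * z)}
  add_mem' := fun {x y} hx hy => ⟨(𝒜 i).add_mem hx.1 hy.1, fun j c hc => by
    rw [add_mul, mul_add, hx.2 j c hc, hy.2 j c hc, smul_add]⟩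
  zero_mem' := ⟨(𝒜 i).zero_mem, fun j c _ => by simp⟩
  smul_mem' := fun r x hx => ⟨(𝒜 i).smul_mem r hx.1, fun j c hc => by
    rw [smul_mul_assoc, mul_smul_comm, hx.2 j c hc, smul_comm]⟩

theorem mul_mem_Zc {𝒜 : ZMod 2 → Submodule F A}
    (hm : ∀ i j, ∀ x ∈ 𝒜 i, ∀ y ∈ 𝒜 j, x * y ∈ 𝒜 (i + j))
    (hW : ∀ x ∈ env 𝒜, ∀ y ∈ env 𝒜, ∀ z ∈ env 𝒜, x * y * z = z * (x * y))
    {i j : ZMod 2} {x y : A} (hx : x ∈ 𝒜 i) (hy : y ∈ 𝒜 j) : x * y ∈ Zc 𝒜 (i + j) := by
  refine ⟨hm i j x hx y hy, fun k c hc => ?_⟩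
  let wl : ZMod 2 → ℕ → List ℕ := fun i n => if i = 1 then [n] else []
  have hl : ∀ i n, ((wl i n).length : ZMod 2) = i := by
    intro i n; rcases z2 i with rfl | rfl <;> simp [wl]
  have hG : ∀ i n, wd F (wl i n) ∈ Gp F i := fun i n => by
    have := wd_mem (F := F) (wl i n); rwa [hl] at this
  have h1 := hW _ (tmul_mem (hG i 0) hx) _ (tmul_mem (hG j 1) hy) _ (tmul_mem (hG k 2) hc)
  simp only [Algebra.TensorProduct.tmul_mul_tmul] at h1
  have h2 : wd F (wl i 0) * wd F (wl j 1) ∈ Gp F (i + j) := by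
    have := wd_mem (F := F) (wl i 0 ++ wl j 1)
    rwa [List.length_append, Nat.cast_add, hl, hl, wd_append] at this
  rw [Gp_comm h2 (hG k 2), smul_tmul, ← sub_eq_zero, ← tmul_sub, ← wd_append, ← wd_append] at h1
  have h3 := wd_ne (F := F) (wl i 0 ++ wl j 1 ++ wl k 2) (by
    simp only [wl]; split_ifs <;> simp)
  obtain ⟨φ, hφ⟩ := Module.Projective.exists_dual_eq_one F h3
  have h4 := congrArg (fun t => TensorProduct.lid F A (LinearMap.rTensor A φ t)) h1
  simp only [LinearMap.rTensor_tmul, hφ, lid_tmul, one_smul, map_zero] at h4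
  exact sub_eq_zero.1 h4

theorem exists_gens {𝒜 : ZMod 2 → Submodule F A} (hc : IsCompl (𝒜 0) (𝒜 1))
    (hm : ∀ i j, ∀ x ∈ 𝒜 i, ∀ y ∈ 𝒜 j, x * y ∈ 𝒜 (i + j))
    (hW : ∀ x ∈ env 𝒜, ∀ y ∈ env 𝒜, ∀ z ∈ env 𝒜, x * y * z = z * (x * y))
    (s : Finset A) (hs : NonUnitalAlgebra.adjoin F (s : Set A) = ⊤) :
    ∃ b : s × ZMod 2 → A, (∀ k, b k ∈ 𝒜 k.2) ∧
      ∀ i, 𝒜 i ≤ Submodule.span F {x | ∃ k, k.2 = i ∧ x = b k} ⊔ Zc 𝒜 i := by
  have h0 : ∀ x : A, ∃ y ∈ 𝒜 0, ∃ z ∈ 𝒜 1, y + z = x := fun x =>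
    Submodule.mem_sup.1 (hc.sup_eq_top ▸ Submodule.mem_top)
  choose c0 m0 c1 m1 he using h0
  let b : s × ZMod 2 → A := fun k => if k.2 = 0 then c0 k.1 else c1 k.1
  have hb : ∀ k, b k ∈ 𝒜 k.2 := by
    rintro ⟨x, i⟩
    rcases z2 i with rfl | rfl
    · simpa [b] using m0 x
    · simpa [b] using m1 x
  refine ⟨b, hb, ?_⟩
  let T : ZMod 2 → Submodule F A := fun i =>
    Submodule.span F {x | ∃ k, k.2 = i ∧ x = b k} ⊔ Zc 𝒜 i
  have hT : ∀ i, T i ≤ 𝒜 i := fun i => sup_le (Submodule.span_le.2 (by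
    rintro _ ⟨k, rfl, rfl⟩; exact hb k)) fun x hx => hx.1
  have hz : ∀ {i j x y}, x ∈ T i → y ∈ T j → x * y ∈ T (i + j) := fun hx hy =>
    Submodule.mem_sup_right (mul_mem_Zc hm hW (hT _ hx) (hT _ hy))
  let S : NonUnitalSubalgebra F A :=
    (T 0 ⊔ T 1).toNonUnitalSubalgebra (fun x y hx hy => by
      obtain ⟨x0, h0, x1, h1, rfl⟩ := Submodule.mem_sup.1 hx
      obtain ⟨y0, g0, y1, g1, rfl⟩ := Submodule.mem_sup.1 hy
      rw [add_mul, mul_add, mul_add]
      have e1 := hz h0 g0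
      have e2 := hz h0 g1
      have e3 := hz h1 g0
      have e4 := hz h1 g1
      rw [add_zero] at e1 e3
      rw [zero_add] at e2
      rw [z11] at e4
      exact add_mem (add_mem (Submodule.mem_sup_left e1) (Submodule.mem_sup_right e2))
        (add_mem (Submodule.mem_sup_right e3) (Submodule.mem_sup_left e4)))
  have hS : ∀ x, x ∈ T 0 ⊔ T 1 := by
    intro x
    have : NonUnitalAlgebra.adjoin F (s : Set A) ≤ S := NonUnitalAlgebra.adjoin_le fun y hy => by
      change y ∈ T 0 ⊔ T 1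
      rw [← he y]
      have e0 : c0 y ∈ T 0 := Submodule.mem_sup_left
        (Submodule.subset_span ⟨(⟨y, hy⟩, 0), rfl, by simp [b]⟩)
      have e1 : c1 y ∈ T 1 := Submodule.mem_sup_left
        (Submodule.subset_span ⟨(⟨y, hy⟩, 1), rfl, by simp [b]⟩)
      exact add_mem (Submodule.mem_sup_left e0) (Submodule.mem_sup_right e1)
    exact this (hs ▸ NonUnitalAlgebra.mem_top)
  intro i x hx
  obtain ⟨x0, h0, x1, h1, rfl⟩ := Submodule.mem_sup.1 (hS x)
  rcases z2 i with rfl | rfl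
  · have : x1 = 0 := (Submodule.disjoint_def.1 hc.disjoint) x1
      (((𝒜 0).add_mem_iff_right (hT 0 h0)).1 hx) (hT 1 h1)
    rw [this, add_zero]; exact h0
  · have : x0 = 0 := (Submodule.disjoint_def.1 hc.disjoint) x0 (hT 0 h0)
      (((𝒜 1).add_mem_iff_left (hT 1 h1)).1 hx)
    rw [this, zero_add]; exact h1

theorem env_dec {𝒜 : ZMod 2 → Submodule F A} {κ : Type} [Fintype κ] (ε : κ → ZMod 2) (b : κ → A)
    (hT : ∀ i, 𝒜 i ≤ Submodule.span F {x | ∃ k, ε k = i ∧ x = b k} ⊔ Zc 𝒜 i)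
    {z : Gr F ⊗[F] A} (hz : z ∈ env 𝒜) : ∃ g : κ → Gr F, (∀ k, g k ∈ Gp F (ε k)) ∧
      ∀ e ∈ env 𝒜, (z - ∑ k, g k ⊗ₜ[F] b k) * e = e * (z - ∑ k, g k ⊗ₜ[F] b k) := by
  classical
  let Y : Submodule F (Gr F ⊗[F] A) :=
    { carrier := {z | ∃ g : κ → Gr F, (∀ k, g k ∈ Gp F (ε k)) ∧
        ∀ e ∈ env 𝒜, (z - ∑ k, g k ⊗ₜ[F] b k) * e = e * (z - ∑ k, g k ⊗ₜ[F] b k)}
      add_mem' := by
        rintro x y ⟨g, h1, h2⟩ ⟨g', h3, h4⟩
        refine ⟨g + g', fun k => add_mem (h1 k) (h3 k), fun e he => ?_⟩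
        simp only [Pi.add_apply, add_tmul, Finset.sum_add_distrib]
        rw [← sub_add_sub_comm, add_mul, mul_add, h2 e he, h4 e he]
      zero_mem' := ⟨0, fun k => zero_mem _, fun e _ => by simp⟩
      smul_mem' := by
        rintro c x ⟨g, h1, h2⟩
        refine ⟨c • g, fun k => Submodule.smul_mem _ c (h1 k), fun e he => ?_⟩
        simp only [Pi.smul_apply, ← smul_tmul', ← Finset.smul_sum, ← smul_sub]
        rw [smul_mul_assoc, mul_smul_comm, h2 e he] }
  refine (Submodule.span_le.2 ?_ : env 𝒜 ≤ Y) hz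
  rintro _ ⟨i, g, hg, x, hx, rfl⟩
  refine (sup_le (Submodule.span_le.2 ?_) ?_ : _ ≤ Y.comap (TensorProduct.mk F _ _ g)) (hT i hx)
  · rintro _ ⟨k, rfl, rfl⟩
    refine ⟨Pi.single k g, fun j => ?_, fun e _ => ?_⟩
    · by_cases h : j = k
      · subst h; simpa using hg
      · simp [h]
    · rw [Finset.sum_eq_single k (fun j _ h => by simp [h]) (by simp)]
      simp
  · intro y hy
    refine ⟨0, fun k => zero_mem _, fun e he => ?_⟩
    simp only [Pi.zero_apply, zero_tmul, Finset.sum_const_zero, sub_zero, mk_apply]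
    induction he using Submodule.span_induction with
    | mem e he =>
      obtain ⟨j, h, hh, c, hc, rfl⟩ := he
      rw [Algebra.TensorProduct.tmul_mul_tmul, Algebra.TensorProduct.tmul_mul_tmul,
        Gp_comm hg hh, hy.2 j c hc, smul_tmul]
    | zero => simp
    | add u v _ _ h1 h2 => rw [add_mul, mul_add, h1, h2]
    | smul c u _ h1 => rw [smul_mul_assoc, mul_smul_comm, h1]

theorem comm_dec {𝒜 : ZMod 2 → Submodule F A} {κ : Type} [Fintype κ] (ε : κ → ZMod 2) (b : κ → A)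
    (hb : ∀ k, b k ∈ 𝒜 (ε k)) {z z' : Gr F ⊗[F] A} (hz' : z' ∈ env 𝒜) {g g' : κ → Gr F}
    (h1 : ∀ k, g k ∈ Gp F (ε k)) (h1' : ∀ k, g' k ∈ Gp F (ε k))
    (h2 : ∀ e ∈ env 𝒜, (z - ∑ k, g k ⊗ₜ[F] b k) * e = e * (z - ∑ k, g k ⊗ₜ[F] b k))
    (h2' : ∀ e ∈ env 𝒜, (z' - ∑ k, g' k ⊗ₜ[F] b k) * e = e * (z' - ∑ k, g' k ⊗ₜ[F] b k)) :
    z * z' - z' * z = ∑ p : κ × κ, (g p.1 * g' p.2) ⊗ₜ[F]
      (b p.1 * b p.2 - sg F (ε p.1) (ε p.2) • (b p.2 * b p.1)) := by
  have e1 := h2 _ hz'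
  have e2 := h2' _ (Submodule.sum_mem _ fun k (_ : k ∈ Finset.univ) => tmul_mem (h1 k) (hb k))
  have e3 : (∑ k, g k ⊗ₜ[F] b k) * (∑ k, g' k ⊗ₜ[F] b k)
      - (∑ k, g' k ⊗ₜ[F] b k) * (∑ k, g k ⊗ₜ[F] b k) = ∑ p : κ × κ, (g p.1 * g' p.2) ⊗ₜ[F]
      (b p.1 * b p.2 - sg F (ε p.1) (ε p.2) • (b p.2 * b p.1)) := by
    rw [Finset.sum_mul_sum, Finset.sum_mul_sum, Finset.sum_comm (f := fun i j => g' i ⊗ₜ[F] b i * _),
      ← Finset.sum_sub_distrib, Fintype.sum_prod_type]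
    refine Finset.sum_congr rfl fun k _ => ?_
    rw [← Finset.sum_sub_distrib]
    refine Finset.sum_congr rfl fun l _ => ?_
    rw [Algebra.TensorProduct.tmul_mul_tmul, Algebra.TensorProduct.tmul_mul_tmul,
      Gp_comm (h1 k) (h1' l), smul_tmul, tmul_sub]
  rw [← e3]
  rw [sub_mul, mul_sub] at e1 e2
  linear_combination (norm := abel) e1 - e2

end Pool.Agent.H.MP_1670b2_al
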