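import Pool.Agent.H.MP_1670b2_al.L

namespace Pool.Agent.H.MP_1670b2_al

open TensorProduct

variable {F : Type} [Field F]

noncomputable def cm (F : Type) [Field F] (i j : ℕ) : Fr F := xx F i * xx F j - xx F j * xx F i

noncomputable def ff {n : ℕ} (c : Equiv.Perm (Fin n) → F) : Fr F :=
  ∑ σ, c σ • (List.ofFn fun i : Fin n => cm F i (n + σ i)).foldr (· * ·) (xx F (2 * n))

section
variable {C : Type} [NonUnitalNonAssocRing C] [Module F C] [IsScalarTower F C C]
  [SMulCommClass F C C]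

theorem lift_ff {n : ℕ} (c : Equiv.Perm (Fin n) → F) (ρ : ℕ → C) :
    FreeNonUnitalNonAssocAlgebra.lift F ρ (ff c) = (∑ σ, c σ • (List.ofFn fun i : Fin n =>
      LinearMap.mul F C (ρ i * ρ (n + σ i) - ρ (n + σ i) * ρ i)).prod) (ρ (2 * n)) := by
  have key : ∀ (l : List (Fr F)) (w : Fr F),
      FreeNonUnitalNonAssocAlgebra.lift F ρ (l.foldr (· * ·) w)
        = (l.map fun u => LinearMap.mul F C (FreeNonUnitalNonAssocAlgebra.lift F ρ u)).prod
          (FreeNonUnitalNonAssocAlgebra.lift F ρ w) := by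
    intro l w
    induction l with
    | nil => rfl
    | cons u l ih => rw [List.foldr_cons, map_mul, ih]; rfl
  rw [ff, map_sum, LinearMap.sum_apply]
  refine Finset.sum_congr rfl fun σ _ => ?_
  rw [map_smul, key, LinearMap.smul_apply, List.map_ofFn, lift_xx]
  simp only [Function.comp_def, cm, map_sub, map_mul, lift_xx]
end

variable {A : Type} [NonUnitalNonAssocRing A] [Module F A] [IsScalarTower F A A]
  [SMulCommClass F A A]

theorem prod_tmul {n : ℕ} (γ : Fin n → Gr F) (q : Fin n → A) :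
    (List.ofFn fun i => LinearMap.mul F (Gr F ⊗[F] A) (γ i ⊗ₜ[F] q i)).prod
      = TensorProduct.map (LinearMap.mul F (Gr F) (List.ofFn γ).prod)
        (List.ofFn fun i => LinearMap.mul F A (q i)).prod := by
  rw [List.ofFn_eq_map, List.ofFn_eq_map, List.ofFn_eq_map]
  induction (List.finRange n) with
  | nil => ext; simp
  | cons x l ih =>
    rw [List.map_cons, List.map_cons, List.map_cons, List.prod_cons, List.prod_cons,
      List.prod_cons, ih]
    ext; simp [mul_assoc]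

theorem vanish {𝒜 : ZMod 2 → Submodule F A} {κ : Type} [Fintype κ] (ε : κ → ZMod 2) (b : κ → A)
    (hb : ∀ k, b k ∈ 𝒜 (ε k))
    (hT : ∀ i, 𝒜 i ≤ Submodule.span F {x | ∃ k, ε k = i ∧ x = b k} ⊔ Zc 𝒜 i) :
    ∃ n, ∃ c : Equiv.Perm (Fin n) → F, c ≠ 0 ∧ ∀ ρ : ℕ → Gr F ⊗[F] A, (∀ i, ρ i ∈ env 𝒜) →
      FreeNonUnitalNonAssocAlgebra.lift F ρ (ff c) = 0 := by
  classical
  obtain ⟨n, hn⟩ := (Nat.eventually_pow_lt_factorial_sub (Fintype.card κ ^ 3) 0).exists
  choose s hs using fun (σ : Equiv.Perm (Fin n)) (k : (Fin n → κ) × (Fin n → κ)) =>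
    pair_sign (F := F) σ (ε ∘ k.1) (ε ∘ k.2)
  let M : Matrix (((Fin n → κ) × (Fin n → κ)) × (Fin n → κ)) (Equiv.Perm (Fin n)) F :=
    fun t σ => if t.1.2 ∘ σ = t.2 then s σ t.1 else 0
  obtain ⟨c, hc, c0⟩ := Submodule.exists_mem_ne_zero_of_ne_bot
    (LinearMap.ker_ne_bot_of_finrank_lt (f := M.mulVecLin) (by
      simp only [Module.finrank_fintype_fun_eq_card, Fintype.card_prod, Fintype.card_perm,
        Fintype.card_fun, Fintype.card_fin]
      rw [Nat.sub_zero, ← pow_mul] at hn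
      convert hn using 1
      ring))
  refine ⟨n, c, c0, fun ρ hρ => ?_⟩
  choose g hg hg' using fun i => env_dec ε b hT (hρ i)
  rw [lift_ff]
  let q : κ → κ → A := fun k l => b k * b l - sg F (ε k) (ε l) • (b l * b k)
  let Q : (Fin n → κ) → (Fin n → κ) → Module.End F A := fun k ψ =>
    (List.ofFn fun i => LinearMap.mul F A (q (k i) (ψ i))).prod
  let Γ : (Fin n → κ) × (Fin n → κ) → Module.End F (Gr F) := fun k => LinearMap.mul F (Gr F)
    ((List.ofFn fun i : Fin n => g i (k.1 i)).prod * (List.ofFn fun i : Fin n => g (n + i) (k.2 i)).prod)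
  have h1 : ∀ σ : Equiv.Perm (Fin n), (List.ofFn fun i : Fin n =>
      LinearMap.mul F _ (ρ i * ρ (n + σ i) - ρ (n + σ i) * ρ i)).prod
      = ∑ k : (Fin n → κ) × (Fin n → κ), ∑ ψ, M (k, ψ) σ • TensorProduct.map (Γ k) (Q k.1 ψ) := by
    intro σ
    have e1 : ∀ i : Fin n, LinearMap.mul F _ (ρ i * ρ (n + σ i) - ρ (n + σ i) * ρ i)
        = ∑ p : κ × κ, LinearMap.mul F _ ((g i p.1 * g (n + σ i) p.2) ⊗ₜ[F] q p.1 p.2) := by
      intro i
      rw [comm_dec ε b hb (hρ _) (hg _) (hg _) (hg' _) (hg' _), map_sum]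
    simp only [e1]
    rw [← MultilinearMap.mkPiAlgebraFin_apply (R := F), MultilinearMap.map_sum]
    have hbij : Function.Bijective fun (k : (Fin n → κ) × (Fin n → κ)) (i : Fin n) =>
        (k.1 i, k.2 (σ i)) := by
      refine Function.bijective_iff_has_inverse.2
        ⟨fun r => (fun i => (r i).1, fun i => (r (σ.symm i)).2), fun k => ?_, fun r => ?_⟩
      · simp
      · simp
    rw [← hbij.sum_comp]
    refine Finset.sum_congr rfl fun k _ => ?_
    rw [MultilinearMap.mkPiAlgebraFin_apply, prod_tmul,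
      hs σ k (fun i => g i (k.1 i)) (fun i => g (n + i) (k.2 i)) (fun i => hg _ _)
        (fun i => hg _ _), Finset.sum_eq_single (k.2 ∘ σ)]
    · simp only [M, if_true, map_smul, TensorProduct.map_smul_left]
      rfl
    · intro ψ _ h
      simp only [M, if_neg h.symm, zero_smul]
    · simp
  simp only [h1, Finset.smul_sum, smul_smul]
  rw [Finset.sum_comm, Finset.sum_eq_zero, LinearMap.zero_apply]
  intro k _
  rw [Finset.sum_comm]
  refine Finset.sum_eq_zero fun ψ _ => ?_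
  have := congrFun (LinearMap.mem_ker.1 hc) (k, ψ)
  simp only [Matrix.mulVecLin_apply, Matrix.mulVec, dotProduct, Pi.zero_apply] at this
  rw [← Finset.sum_smul]
  simp only [mul_comm (c _), this, zero_smul]

noncomputable def bT (F : Type) [Field F] (n : ℕ) :
    ((Fin n → F) × (Fin n → F) × F) →ₗ[F] ((Fin n → F) × (Fin n → F) × F) →ₗ[F]
      ((Fin n → F) × (Fin n → F) × F) :=
  LinearMap.mk₂ F (fun x y => (0, 0, x.2.2 * y.2.2 + (x.1 ⬝ᵥ y.2.1 - y.1 ⬝ᵥ x.2.1)))
    (fun _ _ _ => by simp; ring) (fun _ _ _ => by simp; ring)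
    (fun _ _ _ => by simp; ring) (fun _ _ _ => by simp; ring)

theorem bT_apply (n : ℕ) (x y : (Fin n → F) × (Fin n → F) × F) :
    bT F n x y = (0, 0, x.2.2 * y.2.2 + (x.1 ⬝ᵥ y.2.1 - y.1 ⬝ᵥ x.2.1)) := rfl

open Pool.Agent.H.MP_c03fb1_al (Alg)

theorem inW_bT (n : ℕ) : InW (Alg (bT F n)) := by
  refine ⟨fun (x y z : (Fin n → F) × (Fin n → F) × F) => ?_,
    fun (x y z : (Fin n → F) × (Fin n → F) × F) => ?_⟩
  · change bT F n (bT F n x y + bT F n y x) z + bT F n z (bT F n x y + bT F n y x)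
      = bT F n x (bT F n y z + bT F n z y) + bT F n (bT F n y z + bT F n z y) x
    simp [bT_apply]; ring
  · change bT F n (bT F n x y) z = bT F n z (bT F n x y)
    simp [bT_apply]; ring

theorem not_id [CharZero F] {n : ℕ} (c : Equiv.Perm (Fin n) → F) (hc : c ≠ 0) :
    ¬ IsId F (Alg (bT F n)) (ff c) := by
  classical
  obtain ⟨τ, hτ⟩ := Function.ne_iff.1 hc
  intro h
  let ρ : ℕ → (Fin n → F) × (Fin n → F) × F := fun m =>
    (fun i => if (i : ℕ) = m then 1 else 0, fun i => if n + τ i = m then 1 else 0,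
      if m = 2 * n then 1 else 0)
  have h1 := (lift_ff (C := Alg (bT F n)) c ρ).symm.trans (h ρ)
  erw [LinearMap.sum_apply] at h1
  have key : ∀ (t : Fin n → F) (u : Fin n → Alg (bT F n)), (∀ i, u i = ((0, 0, t i) :
      (Fin n → F) × (Fin n → F) × F)) →
      (List.ofFn fun i => LinearMap.mul F _ (u i)).prod (ρ (2 * n))
        = ((0, 0, ∏ i, t i) : (Fin n → F) × (Fin n → F) × F) := by
    intro t u hu
    rw [← List.prod_ofFn, List.ofFn_eq_map, List.ofFn_eq_map]
    induction (List.finRange n) with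
    | nil =>
      change ρ (2 * n) = _
      simp only [ρ, List.map_nil, List.prod_nil, if_true, Prod.mk.injEq, and_true]
      constructor
      · funext i; rw [if_neg (by omega)]; rfl
      · funext i; rw [if_neg (by omega)]; rfl
    | cons x l ih =>
      rw [List.map_cons, List.prod_cons]
      erw [Module.End.mul_apply, ih, hu]
      change bT F n (0, 0, t x) (0, 0, _) = _
      simp [bT_apply]
  have h2 : ∀ (σ : Equiv.Perm (Fin n)) (i : Fin n),
      bT F n (ρ i) (ρ (n + σ i)) - bT F n (ρ (n + σ i)) (ρ i)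
        = (0, 0, if τ i = σ i then 2 else 0) := by
    intro σ i
    have e1 : (ρ (n + σ i)).1 = 0 := by funext j; simp only [ρ]; rw [if_neg (by omega)]; rfl
    have e2 : (ρ i).1 ⬝ᵥ (ρ (n + σ i)).2.1 = if τ i = σ i then 1 else 0 := by
      simp only [ρ, dotProduct, Fin.val_inj, ite_mul, one_mul, zero_mul, Finset.sum_ite_eq',
        Finset.mem_univ, if_true, add_right_inj]
    simp only [bT_apply, e1, e2, zero_dotProduct, Prod.mk_sub_mk, sub_self]
    split_ifs <;> ring_nf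
  have h3 : ∑ σ, c σ • ((0, 0, ∏ i, if τ i = σ i then 2 else 0) :
      (Fin n → F) × (Fin n → F) × F) = 0 := by
    refine Eq.trans (Finset.sum_congr rfl fun σ _ => ?_) h1
    erw [LinearMap.smul_apply, key _ _ (h2 σ)]
    rfl
  have h4 := congrArg (fun x => x.2.2) h3
  simp only [Prod.snd_sum, Prod.smul_mk, smul_eq_mul, Prod.snd_zero] at h4
  rw [Finset.sum_eq_single τ] at h4
  · simp at h4
    exact hτ h4
  · intro σ _ hσ
    obtain ⟨i, hi⟩ := DFunLike.ne_iff.1 hσ
    rw [Finset.prod_eq_zero (Finset.mem_univ i) (if_neg (Ne.symm hi)), mul_zero]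
  · simp

theorem no_rank [CharZero F] {𝒜 : ZMod 2 → Submodule F A} (hc : IsCompl (𝒜 0) (𝒜 1))
    (hm : ∀ i j, ∀ x ∈ 𝒜 i, ∀ y ∈ 𝒜 j, x * y ∈ 𝒜 (i + j))
    (s : Finset A) (hs : NonUnitalAlgebra.adjoin F (s : Set A) = ⊤)
    (hW : ∀ ρ : ℕ → Gr F ⊗[F] A, (∀ i, ρ i ∈ env 𝒜) →
      FreeNonUnitalNonAssocAlgebra.lift F ρ (w2 F) = 0) :
    ∃ f : Fr F, (∀ ρ : ℕ → Gr F ⊗[F] A, (∀ i, ρ i ∈ env 𝒜) →
      FreeNonUnitalNonAssocAlgebra.lift F ρ f = 0) ∧ ∃ n, ¬ IsId F (Alg (bT F n)) f := by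
  obtain ⟨b, hb, hT⟩ := exists_gens hc hm (fun x hx y hy z hz => by
    have := hW (fun i => if i = 0 then x else if i = 1 then y else z)
      (fun i => by split_ifs <;> assumption)
    simp only [w2, map_sub, map_mul, lift_xx] at this
    simpa [sub_eq_zero] using this) s hs
  obtain ⟨n, c, c0, h⟩ := vanish Prod.snd b hb hT
  exact ⟨ff c, h, n, not_id c c0⟩

end Pool.Agent.H.MP_1670b2_al
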